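import Pool.Agent.H47.Vin.L

/-!
# Fourier synthesis and a Sobolev type estimate
-/

namespace Pool.Agent.H47.Vin

open MeasureTheory Set
open scoped BigOperators ENNReal Real

theorem neg_pi_lt_pi : -Real.pi < Real.pi := by linarith [Real.pi_pos]

/-- Fourier coefficients of a function on `[-pi, pi]` -/
noncomputable def cf (f : ℝ → ℂ) (n : ℤ) : ℂ := fourierCoeffOn neg_pi_lt_pi f n

theorem cf_eq (f : ℝ → ℂ) (n : ℤ) :
    cf f n = 1 / (2 * Real.pi)
      * ∫ x in (-Real.pi)..Real.pi, Complex.exp (-(n * (x * Complex.I))) * f x := by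
  unfold cf
  rw [fourierCoeffOn_eq_integral]
  have h1 : ∀ x : ℝ, fourier (-n) (x : AddCircle (Real.pi - -Real.pi)) • f x
      = Complex.exp (-(n * (x * Complex.I))) * f x := by
    intro x
    rw [fourier_coe_apply, smul_eq_mul]
    congr 2
    have : (Real.pi : ℂ) ≠ 0 := by exact_mod_cast Real.pi_ne_zero
    push_cast
    field_simp
    ring
  simp_rw [h1]
  rw [Complex.real_smul]
  congr 1
  push_cast
  ring

theorem fourierCoeffOn_congr_right {a b b' : ℝ} (h : a < b) (h' : a < b') (hb : b = b')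
    (f : ℝ → ℂ) (n : ℤ) : fourierCoeffOn h f n = fourierCoeffOn h' f n := by
  subst hb
  rfl

theorem synth {f : ℝ → ℂ} (hf : ContinuousOn f (Icc (-Real.pi) Real.pi))
    (hper : f (-Real.pi) = f Real.pi) (hs : Summable (fun n => ‖cf f n‖)) {t : ℝ}
    (ht : |t| ≤ Real.pi) : ev t (mkW (cf f) hs) = f t := by
  have hpi := Real.pi_pos
  have hT : Fact (0 < 2 * Real.pi) := ⟨by positivity⟩
  have hend : -Real.pi + 2 * Real.pi = Real.pi := by ring
  let F : C(AddCircle (2 * Real.pi), ℂ) :=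
    ⟨AddCircle.liftIco (2 * Real.pi) (-Real.pi) f,
      AddCircle.liftIco_continuous (by rw [hend]; exact hper) (by rw [hend]; exact hf)⟩
  have hco : ∀ n, fourierCoeff F n = cf f n := by
    intro n
    show fourierCoeff (AddCircle.liftIco (2 * Real.pi) (-Real.pi) f) n = _
    rw [fourierCoeff_liftIco_eq]
    exact fourierCoeffOn_congr_right _ _ hend f n
  have hsum : Summable (fourierCoeff F) :=
    (Summable.of_norm hs).congr fun n => (hco n).symm
  have h := has_pointwise_sum_fourier_series_of_summable hsum (t : AddCircle (2 * Real.pi))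
  have hF : F (t : AddCircle (2 * Real.pi)) = f t := by
    show AddCircle.liftIco (2 * Real.pi) (-Real.pi) f t = f t
    rcases (abs_le.1 ht).2.lt_or_eq with h1 | h1
    · exact AddCircle.liftIco_coe_apply ⟨(abs_le.1 ht).1, by rw [hend]; exact h1⟩
    · have h2 : (t : AddCircle (2 * Real.pi)) = ((-Real.pi : ℝ) : AddCircle (2 * Real.pi)) := by
        have h3 := AddCircle.coe_add_period (2 * Real.pi) (-Real.pi)
        rw [hend] at h3
        rw [h1, h3]
      rw [h2, AddCircle.liftIco_coe_apply ⟨le_rfl, by linarith⟩, hper, h1]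
  rw [hF] at h
  rw [ev_eq, ← h.tsum_eq]
  refine tsum_congr fun n => ?_
  rw [co_mk, hco, fourier_coe_apply, smul_eq_mul]
  congr 2
  have : (Real.pi : ℂ) ≠ 0 := by exact_mod_cast Real.pi_ne_zero
  push_cast
  field_simp

/-- existence form -/
theorem exists_synth {f : ℝ → ℂ} (hf : ContinuousOn f (Icc (-Real.pi) Real.pi))
    (hper : f (-Real.pi) = f Real.pi) (hs : Summable (fun n => ‖cf f n‖)) :
    ∃ a : W, (∀ n, co a n = cf f n) ∧ ∀ t, |t| ≤ Real.pi → ev t a = f t :=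
  ⟨mkW (cf f) hs, fun _ => rfl, fun _ ht => synth hf hper hs ht⟩

/-- a bounded function supported in `[-T, T]` is square integrable, with norm control -/
theorem sum_sq_cf_le {g : ℝ → ℂ} {B T : ℝ} (hT : 0 ≤ T)
    (hm : AEStronglyMeasurable g (volume.restrict (Ioc (-Real.pi) Real.pi)))
    (hgB : ∀ x, ‖g x‖ ≤ B) (hz : ∀ x, T < |x| → g x = 0) :
    Summable (fun n => ‖cf g n‖ ^ 2) ∧ ∑' n, ‖cf g n‖ ^ 2 ≤ B ^ 2 * T / Real.pi := by
  have hpi := Real.pi_pos
  have hL2 : MemLp g 2 (volume.restrict (Ioc (-Real.pi) Real.pi)) :=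
    MemLp.of_bound hm B (Filter.Eventually.of_forall hgB)
  have h := hasSum_sq_fourierCoeffOn neg_pi_lt_pi hL2
  refine ⟨h.summable, ?_⟩
  rw [show (∑' n, ‖cf g n‖ ^ 2) = _ from h.tsum_eq]
  have hint : ∫ x in (-Real.pi)..Real.pi, ‖g x‖ ^ 2 ≤ 2 * T * B ^ 2 := by
    rw [intervalIntegral.integral_of_le neg_pi_lt_pi.le]
    rw [setIntegral_eq_of_subset_of_forall_sdiff_eq_zero (s := Ioc (-Real.pi) Real.pi ∩ Icc (-T) T)
      measurableSet_Ioc inter_subset_left]
    · have hfin : volume (Ioc (-Real.pi) Real.pi ∩ Icc (-T) T) < ⊤ :=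
        (measure_mono inter_subset_right).trans_lt (by rw [Real.volume_Icc]; exact ENNReal.ofReal_lt_top)
      have h1 := norm_setIntegral_le_of_norm_le_const (μ := volume) (C := B ^ 2)
        (f := fun x => ‖g x‖ ^ 2) hfin (fun x _ => by
          rw [Real.norm_of_nonneg (by positivity)]
          exact pow_le_pow_left₀ (norm_nonneg _) (hgB x) 2)
      have h2 : volume.real (Ioc (-Real.pi) Real.pi ∩ Icc (-T) T) ≤ 2 * T := by
        refine (measureReal_mono inter_subset_right (by rw [Real.volume_Icc]; exact ENNReal.ofReal_ne_top)).trans ?_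
        rw [Real.volume_real_Icc_of_le (by linarith)]
        linarith
      calc _ ≤ _ := Real.le_norm_self _
        _ ≤ _ := h1
        _ ≤ B ^ 2 * (2 * T) := mul_le_mul_of_nonneg_left h2 (by positivity)
        _ = _ := by ring
    · rintro x ⟨hx1, hx2⟩
      have : T < |x| := by
        by_contra hcon
        exact hx2 ⟨hx1, abs_le.1 (not_lt.1 hcon)⟩
      rw [hz x this]
      simp
  rw [smul_eq_mul, show (Real.pi - -Real.pi) = 2 * Real.pi by ring]
  calc (2 * Real.pi)⁻¹ * ∫ x in (-Real.pi)..Real.pi, ‖g x‖ ^ 2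
      ≤ (2 * Real.pi)⁻¹ * (2 * T * B ^ 2) := mul_le_mul_of_nonneg_left hint (by positivity)
    _ = _ := by field_simp


/-- integration by parts -/
theorem cf_deriv {f f' : ℝ → ℂ} {B : ℝ} (hf : ContinuousOn f (Icc (-Real.pi) Real.pi))
    (hper : f (-Real.pi) = f Real.pi)
    (hd : ∀ x ∈ Ioo (-Real.pi) Real.pi, HasDerivWithinAt f (f' x) (Ioi x) x)
    (hm : AEStronglyMeasurable f' (volume.restrict (Ioc (-Real.pi) Real.pi)))
    (hB : ∀ x, ‖f' x‖ ≤ B) {n : ℤ} (hn : n ≠ 0) :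
    cf f n = cf f' n / (Complex.I * n) := by
  have hpi := Real.pi_pos
  have hint : IntervalIntegrable f' volume (-Real.pi) Real.pi := by
    rw [intervalIntegrable_iff, uIoc_of_le neg_pi_lt_pi.le]
    exact Integrable.of_bound hm B (Filter.Eventually.of_forall hB)
  have h := fourierCoeffOn_of_hasDeriv_right neg_pi_lt_pi (f := f) (f' := f') hn
    (by rwa [uIcc_of_le neg_pi_lt_pi.le])
    (fun x hx => hd x (by rwa [min_eq_left neg_pi_lt_pi.le, max_eq_right neg_pi_lt_pi.le] at hx))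
    hint
  unfold cf
  rw [h, hper, sub_self, mul_zero, zero_sub]
  have h1 : (n : ℂ) ≠ 0 := by exact_mod_cast hn
  have h2 : (Real.pi : ℂ) ≠ 0 := by exact_mod_cast Real.pi_ne_zero
  have h3 := Complex.I_ne_zero
  push_cast
  field_simp
  ring

theorem aesm_deriv {f f' : ℝ → ℂ}
    (hd : ∀ x ∈ Ioo (-Real.pi) Real.pi, HasDerivWithinAt f (f' x) (Ioi x) x) :
    AEStronglyMeasurable f' (volume.restrict (Ioc (-Real.pi) Real.pi)) := by
  refine (aestronglyMeasurable_derivWithin_Ioi f _).congr ?_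
  rw [← Measure.restrict_congr_set Ioo_ae_eq_Ioc]
  filter_upwards [self_mem_ae_restrict measurableSet_Ioo] with x hx
  exact (hd x hx).derivWithin (uniqueDiffWithinAt_Ioi x)

/-- finite Cauchy-Schwarz against a square summable sequence -/
theorem cs_finset {ι : Type*} (s : Finset ι) (u v : ι → ℝ) {U V : ℝ} (hU : 0 ≤ U)
    (hu : ∑ i ∈ s, u i ^ 2 ≤ U) (hv : ∑ i ∈ s, v i ^ 2 ≤ V) :
    ∑ i ∈ s, u i * v i ≤ Real.sqrt (U * V) := by
  refine Real.le_sqrt_of_sq_le ?_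
  exact (Finset.sum_mul_sq_le_sq_mul_sq s u v).trans
    (mul_le_mul hu hv (Finset.sum_nonneg fun i _ => sq_nonneg _) hU)

theorem sum_inv_sq_nat_le (Q N : ℕ) (hQ : 0 < Q) :
    ∑ n ∈ Finset.Ioc Q N, (1 / (n : ℝ) ^ 2) ≤ 1 / (Q : ℝ) - 1 / ((max Q N : ℕ) : ℝ) := by
  induction N with
  | zero => simp
  | succ N ih =>
      rcases Nat.lt_or_ge N Q with h | h
      · have h1 : Finset.Ioc Q (N + 1) = ∅ := Finset.Ioc_eq_empty (by omega)
        have h2 : max Q (N + 1) = Q := max_eq_left (by omega)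
        rw [h1, h2]
        simp
      · rw [Finset.sum_Ioc_succ_top (by omega)]
        rw [max_eq_right h] at ih
        rw [max_eq_right (by omega : Q ≤ N + 1)]
        have hN : (0 : ℝ) < N := by exact_mod_cast (by omega : 0 < N)
        have h3 : 1 / ((N + 1 : ℕ) : ℝ) ^ 2 ≤ 1 / N - 1 / ((N + 1 : ℕ) : ℝ) := by
          push_cast
          rw [div_sub_div _ _ (by positivity) (by positivity), div_le_div_iff₀ (by positivity) (by positivity)]
          nlinarith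
        linarith

/-- sum of inverse squares over integers of absolute value larger than `Q` -/
theorem sum_inv_sq_int_le (Q : ℕ) (hQ : 0 < Q) (s : Finset ℤ) (hs : ∀ n ∈ s, (Q : ℤ) < |n|) :
    ∑ n ∈ s, (1 / (n : ℝ)) ^ 2 ≤ 2 / (Q : ℝ) := by
  classical
  -- split into positive and negative parts
  have key : ∀ u : Finset ℤ, (∀ n ∈ u, (Q : ℤ) < n) → ∑ n ∈ u, (1 / (n : ℝ)) ^ 2 ≤ 1 / (Q : ℝ) := by
    intro u hu
    obtain ⟨N, hN⟩ : ∃ N : ℕ, ∀ n ∈ u, n ≤ N := by
      refine ⟨(u.sup fun n => n.toNat), fun n hn => ?_⟩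
      have h1 : n.toNat ≤ u.sup fun n => n.toNat := Finset.le_sup (f := fun n : ℤ => n.toNat) hn
      have h2 : n ≤ (n.toNat : ℤ) := Int.self_le_toNat n
      exact h2.trans (by exact_mod_cast h1)
    have h1 : u ⊆ (Finset.Ioc Q N).map ⟨fun n : ℕ => (n : ℤ), Nat.cast_injective⟩ := by
      intro n hn
      rw [Finset.mem_map]
      have h2 := hu n hn
      have h3 := hN n hn
      refine ⟨n.toNat, ?_, ?_⟩
      · rw [Finset.mem_Ioc]
        omega
      · show ((n.toNat : ℕ) : ℤ) = n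
        omega
    calc ∑ n ∈ u, (1 / (n : ℝ)) ^ 2
        ≤ ∑ n ∈ (Finset.Ioc Q N).map ⟨fun n : ℕ => (n : ℤ), Nat.cast_injective⟩, (1 / (n : ℝ)) ^ 2 :=
          Finset.sum_le_sum_of_subset_of_nonneg h1 fun _ _ _ => sq_nonneg _
      _ = ∑ n ∈ Finset.Ioc Q N, (1 / (n : ℝ) ^ 2) := by
          rw [Finset.sum_map]
          refine Finset.sum_congr rfl fun n _ => ?_
          simp
      _ ≤ 1 / (Q : ℝ) - 1 / ((max Q N : ℕ) : ℝ) := sum_inv_sq_nat_le Q N hQ
      _ ≤ 1 / (Q : ℝ) := by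
          have : (0 : ℝ) ≤ 1 / ((max Q N : ℕ) : ℝ) := by positivity
          linarith
  have h1 := key (s.filter fun n => 0 < n) (fun n hn => by
    rw [Finset.mem_filter] at hn
    have := hs n hn.1
    rwa [abs_of_pos hn.2] at this)
  have h2 := key ((s.filter fun n => ¬ 0 < n).map ⟨fun n : ℤ => -n, neg_injective⟩) (fun n hn => by
    rw [Finset.mem_map] at hn
    obtain ⟨m, hm, rfl⟩ := hn
    rw [Finset.mem_filter] at hm
    have := hs m hm.1
    rwa [abs_of_nonpos (not_lt.1 hm.2)] at this)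
  rw [Finset.sum_map] at h2
  have h3 : ∑ n ∈ s.filter (fun n => ¬ 0 < n), (1 / ((((⟨fun n : ℤ => -n, neg_injective⟩ : ℤ ↪ ℤ) n : ℤ)) : ℝ)) ^ 2
      = ∑ n ∈ s.filter (fun n => ¬ 0 < n), (1 / (n : ℝ)) ^ 2 := by
    refine Finset.sum_congr rfl fun n _ => ?_
    simp
  rw [h3] at h2
  rw [← Finset.sum_filter_add_sum_filter_not s (fun n => 0 < n)]
  calc _ ≤ 1 / (Q : ℝ) + 1 / Q := add_le_add h1 h2
    _ = _ := by ring

section sob

variable {f f' : ℝ → ℂ} {A B T : ℝ}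

/-- finite tail estimate -/
theorem cf_tail_finset (hT : 0 < T) (hf : ContinuousOn f (Icc (-Real.pi) Real.pi))
    (hper : f (-Real.pi) = f Real.pi)
    (hd : ∀ x ∈ Ioo (-Real.pi) Real.pi, HasDerivWithinAt f (f' x) (Ioi x) x)
    (hB : ∀ x, ‖f' x‖ ≤ B) (hz' : ∀ x, T < |x| → f' x = 0) {Q : ℕ} (hQ : 0 < Q)
    (s : Finset ℤ) (hs : ∀ n ∈ s, (Q : ℤ) < |n|) :
    ∑ n ∈ s, ‖cf f n‖ ≤ B * Real.sqrt (T / Q) := by
  have hpi := Real.pi_pos
  have hB0 : 0 ≤ B := (norm_nonneg _).trans (hB 0)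
  have hm := aesm_deriv hd
  obtain ⟨h1, h2⟩ := sum_sq_cf_le hT.le hm hB hz'
  have h3 : ∑ n ∈ s, ‖cf f' n‖ ^ 2 ≤ B ^ 2 * T / Real.pi :=
    (h1.sum_le_tsum s fun _ _ => sq_nonneg _).trans h2
  have h4 : ∀ n ∈ s, ‖cf f n‖ = |1 / (n : ℝ)| * ‖cf f' n‖ := by
    intro n hn
    have hn0 : n ≠ 0 := by
      rintro rfl
      have := hs 0 hn
      simp at this
      omega
    rw [cf_deriv hf hper hd hm hB hn0, norm_div, norm_mul, Complex.norm_I, one_mul,
      Complex.norm_intCast, abs_div, abs_one]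
    ring
  rw [Finset.sum_congr rfl h4]
  have h5 := cs_finset s (fun n => |1 / (n : ℝ)|) (fun n => ‖cf f' n‖) (U := 2 / Q)
    (by positivity) (by simpa only [sq_abs] using sum_inv_sq_int_le Q hQ s hs) h3
  refine h5.trans ?_
  rw [← Real.sqrt_sq hB0, ← Real.sqrt_mul (by positivity), Real.sqrt_sq hB0]
  apply Real.sqrt_le_sqrt
  have hQ' : (0 : ℝ) < Q := by exact_mod_cast hQ
  rw [show 2 / (Q : ℝ) * (B ^ 2 * T / Real.pi) = (2 / Real.pi) * (B ^ 2 * (T / Q)) by ring]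
  refine mul_le_of_le_one_left (by positivity) ?_
  rw [div_le_one hpi]
  exact Real.two_le_pi

theorem cf_low_finset (hT : 0 < T) (hm : AEStronglyMeasurable f (volume.restrict (Ioc (-Real.pi) Real.pi)))
    (hA : ∀ x, ‖f x‖ ≤ A) (hz : ∀ x, T < |x| → f x = 0)
    (s : Finset ℤ) :
    ∑ n ∈ s, ‖cf f n‖ ≤ A * Real.sqrt (s.card * T / Real.pi) := by
  have hpi := Real.pi_pos
  have hA0 : 0 ≤ A := (norm_nonneg _).trans (hA 0)
  obtain ⟨h1, h2⟩ := sum_sq_cf_le hT.le hm hA hz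
  have h3 : ∑ n ∈ s, ‖cf f n‖ ^ 2 ≤ A ^ 2 * T / Real.pi :=
    (h1.sum_le_tsum s fun _ _ => sq_nonneg _).trans h2
  have h5 := cs_finset s (fun _ => (1 : ℝ)) (fun n => ‖cf f n‖) (U := s.card)
    (by positivity) (by simp) h3
  simp only [one_mul] at h5
  refine h5.trans (le_of_eq ?_)
  rw [← Real.sqrt_sq hA0, ← Real.sqrt_mul (by positivity), Real.sqrt_sq hA0]
  congr 1
  ring

/-- the main estimate for finite sets -/
theorem cf_sum_finset (hT : 0 < T) (hA0 : 0 < A) (hAB : A ≤ B)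
    (hf : ContinuousOn f (Icc (-Real.pi) Real.pi))
    (hper : f (-Real.pi) = f Real.pi)
    (hd : ∀ x ∈ Ioo (-Real.pi) Real.pi, HasDerivWithinAt f (f' x) (Ioi x) x)
    (hA : ∀ x, ‖f x‖ ≤ A) (hz : ∀ x, T < |x| → f x = 0)
    (hB : ∀ x, ‖f' x‖ ≤ B) (hz' : ∀ x, T < |x| → f' x = 0)
    (s : Finset ℤ) :
    ∑ n ∈ s, ‖cf f n‖ ≤ 3 * Real.sqrt (A * B * T) := by
  classical
  have hpi := Real.pi_gt_three
  have hB0 : 0 < B := hA0.trans_le hAB
  obtain ⟨Q, hQ1, hQ2, hQ3⟩ : ∃ Q : ℕ, 0 < Q ∧ B / A ≤ Q ∧ (Q : ℝ) ≤ 2 * (B / A) := by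
    have h1 : 1 ≤ B / A := by rwa [le_div_iff₀ hA0, one_mul]
    refine ⟨⌈B / A⌉₊, Nat.ceil_pos.2 (by positivity), Nat.le_ceil _, ?_⟩
    have := Nat.ceil_lt_add_one (a := B / A) (by positivity)
    linarith
  have hQ' : (0 : ℝ) < Q := by exact_mod_cast hQ1
  have hm : AEStronglyMeasurable f (volume.restrict (Ioc (-Real.pi) Real.pi)) :=
    (hf.mono Ioc_subset_Icc_self).aestronglyMeasurable measurableSet_Ioc
  rw [← Finset.sum_filter_add_sum_filter_not s (fun n => (Q : ℤ) < |n|)]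
  have h1 := cf_tail_finset hT hf hper hd hB hz' hQ1 (s.filter fun n => (Q : ℤ) < |n|)
    (fun n hn => (Finset.mem_filter.1 hn).2)
  have h2 := cf_low_finset hT hm hA hz (s.filter fun n => ¬ (Q : ℤ) < |n|)
  have h3 : ((s.filter fun n => ¬ (Q : ℤ) < |n|).card : ℝ) ≤ 5 * (B / A) := by
    have h4 : (s.filter fun n => ¬ (Q : ℤ) < |n|) ⊆ Finset.Icc (-(Q : ℤ)) Q := by
      intro n hn
      have := (Finset.mem_filter.1 hn).2
      rw [not_lt, abs_le] at this
      exact Finset.mem_Icc.2 this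
    have h5 := Finset.card_le_card h4
    rw [Int.card_Icc] at h5
    have h6 : ((s.filter fun n => ¬ (Q : ℤ) < |n|).card : ℝ) ≤ 2 * Q + 1 := by
      have : (s.filter fun n => ¬ (Q : ℤ) < |n|).card ≤ 2 * Q + 1 := by omega
      exact_mod_cast this
    have h7 : 1 ≤ B / A := by rwa [le_div_iff₀ hA0, one_mul]
    linarith
  have hS : 0 ≤ Real.sqrt (A * B * T) := Real.sqrt_nonneg _
  have h4 : B * Real.sqrt (T / Q) ≤ Real.sqrt (A * B * T) := by
    rw [← Real.sqrt_sq hB0.le, ← Real.sqrt_mul (by positivity), Real.sqrt_sq hB0.le]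
    apply Real.sqrt_le_sqrt
    rw [← mul_div_assoc, div_le_iff₀ hQ']
    have : B ≤ A * Q := by rwa [div_le_iff₀ hA0, mul_comm] at hQ2
    nlinarith [mul_le_mul_of_nonneg_left this (by positivity : 0 ≤ B * T)]
  have h5 : A * Real.sqrt ((s.filter fun n => ¬ (Q : ℤ) < |n|).card * T / Real.pi)
      ≤ 2 * Real.sqrt (A * B * T) := by
    have h6 : (2 : ℝ) * Real.sqrt (A * B * T) = Real.sqrt (4 * (A * B * T)) := by
      rw [Real.sqrt_mul (by norm_num : (0:ℝ) ≤ 4), show (4 : ℝ) = 2 ^ 2 by norm_num,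
        Real.sqrt_sq (by norm_num)]
    rw [h6, ← Real.sqrt_sq hA0.le, ← Real.sqrt_mul (by positivity), Real.sqrt_sq hA0.le]
    apply Real.sqrt_le_sqrt
    rw [← mul_div_assoc, div_le_iff₀ Real.pi_pos]
    calc A ^ 2 * (((s.filter fun n => ¬ (Q : ℤ) < |n|).card : ℝ) * T)
        ≤ A ^ 2 * (5 * (B / A) * T) := by gcongr
      _ = 5 * (A * B * T) := by field_simp
      _ ≤ 4 * (A * B * T) * Real.pi := by
          have : 0 < A * B * T := by positivity
          nlinarith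
  linarith

theorem summable_cf (hT : 0 < T) (hA0 : 0 < A) (hAB : A ≤ B)
    (hf : ContinuousOn f (Icc (-Real.pi) Real.pi))
    (hper : f (-Real.pi) = f Real.pi)
    (hd : ∀ x ∈ Ioo (-Real.pi) Real.pi, HasDerivWithinAt f (f' x) (Ioi x) x)
    (hA : ∀ x, ‖f x‖ ≤ A) (hz : ∀ x, T < |x| → f x = 0)
    (hB : ∀ x, ‖f' x‖ ≤ B) (hz' : ∀ x, T < |x| → f' x = 0) :
    Summable (fun n => ‖cf f n‖) :=
  summable_of_sum_le (fun _ => norm_nonneg _)
    (cf_sum_finset hT hA0 hAB hf hper hd hA hz hB hz')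

/-- the Fourier coefficients of an element of `W` are its coefficients -/
theorem cf_of_ev {a : W} (h : ∀ t, |t| ≤ Real.pi → ev t a = f t)
    (hf : ContinuousOn f (Icc (-Real.pi) Real.pi))
    (hper : f (-Real.pi) = f Real.pi) (hs : Summable (fun n => ‖cf f n‖)) (n : ℤ) :
    co a n = cf f n := by
  have : a = mkW (cf f) hs := ext_pi fun t ht => by rw [h t ht, synth hf hper hs ht]
  rw [this, co_mk]

/-- Sobolev type estimate: existence of the symbol in the Wiener ring -/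
theorem exists_sob (hT : 0 < T) (hA0 : 0 < A) (hAB : A ≤ B)
    (hf : ContinuousOn f (Icc (-Real.pi) Real.pi))
    (hper : f (-Real.pi) = f Real.pi)
    (hd : ∀ x ∈ Ioo (-Real.pi) Real.pi, HasDerivWithinAt f (f' x) (Ioi x) x)
    (hA : ∀ x, ‖f x‖ ≤ A) (hz : ∀ x, T < |x| → f x = 0)
    (hB : ∀ x, ‖f' x‖ ≤ B) (hz' : ∀ x, T < |x| → f' x = 0) :
    ∃ a : W, (∀ t, |t| ≤ Real.pi → ev t a = f t) ∧ ‖a‖ ≤ 3 * Real.sqrt (A * B * T) ∧
      ∀ Q : ℕ, 0 < Q → ‖res {n : ℤ | (Q : ℤ) < |n|} a‖ ≤ B * Real.sqrt (T / Q) := by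
  classical
  have hs := summable_cf hT hA0 hAB hf hper hd hA hz hB hz'
  refine ⟨mkW (cf f) hs, fun t ht => synth hf hper hs ht, ?_, fun Q hQ => ?_⟩
  · rw [norm_eq]
    exact hs.tsum_le_of_sum_le (cf_sum_finset hT hA0 hAB hf hper hd hA hz hB hz')
  · rw [norm_eq]
    refine (summable_co _).tsum_le_of_sum_le fun s => ?_
    rw [← Finset.sum_filter_add_sum_filter_not s (fun n => (Q : ℤ) < |n|)]
    have h1 : ∑ n ∈ s.filter (fun n => ¬ (Q : ℤ) < |n|),
        ‖co (res {n : ℤ | (Q : ℤ) < |n|} (mkW (cf f) hs)) n‖ = 0 := by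
      refine Finset.sum_eq_zero fun n hn => ?_
      have hn' : n ∉ {n : ℤ | (Q : ℤ) < |n|} := (Finset.mem_filter.1 hn).2
      rw [co_res_of_notMem hn', norm_zero]
    have h2 : ∑ n ∈ s.filter (fun n => (Q : ℤ) < |n|),
        ‖co (res {n : ℤ | (Q : ℤ) < |n|} (mkW (cf f) hs)) n‖
        = ∑ n ∈ s.filter (fun n => (Q : ℤ) < |n|), ‖cf f n‖ := by
      refine Finset.sum_congr rfl fun n hn => ?_
      have hn' : n ∈ {n : ℤ | (Q : ℤ) < |n|} := (Finset.mem_filter.1 hn).2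
      rw [co_res_of_mem hn', co_mk]
    rw [h1, h2, add_zero]
    exact cf_tail_finset hT hf hper hd hB hz' hQ _ fun n hn => (Finset.mem_filter.1 hn).2

/-- Sobolev type estimate for a given element of the Wiener ring -/
theorem norm_le_sob {a : W} (h : ∀ t, |t| ≤ Real.pi → ev t a = f t)
    (hT : 0 < T) (hA0 : 0 < A) (hAB : A ≤ B)
    (hf : ContinuousOn f (Icc (-Real.pi) Real.pi))
    (hper : f (-Real.pi) = f Real.pi)
    (hd : ∀ x ∈ Ioo (-Real.pi) Real.pi, HasDerivWithinAt f (f' x) (Ioi x) x)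
    (hA : ∀ x, ‖f x‖ ≤ A) (hz : ∀ x, T < |x| → f x = 0)
    (hB : ∀ x, ‖f' x‖ ≤ B) (hz' : ∀ x, T < |x| → f' x = 0) :
    ‖a‖ ≤ 3 * Real.sqrt (A * B * T) ∧
      ∀ Q : ℕ, 0 < Q → ‖res {n : ℤ | (Q : ℤ) < |n|} a‖ ≤ B * Real.sqrt (T / Q) := by
  obtain ⟨b, hb, hb1, hb2⟩ := exists_sob hT hA0 hAB hf hper hd hA hz hB hz'
  have : a = b := ext_pi fun t ht => by rw [h t ht, hb t ht]
  rw [this]
  exact ⟨hb1, hb2⟩

end sob

end Pool.Agent.H47.Vin
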