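import Pool.Agent.H47.Vin.Comb
import Pool.Agent.H36.Vin.Sob

/-!
# Fejer kernels and trapezoids
-/

namespace Pool.Agent.H47.Vin

open MeasureTheory Set
open scoped Real

/-- coefficients of the triangle function of half width `T` -/
noncomputable def tri (T : ℝ) (n : ℤ) : ℝ :=
  if n = 0 then T / (2 * π) else (1 - Real.cos (n * T)) / (π * T * (n : ℝ) ^ 2)

theorem tri_nonneg {T : ℝ} (hT : 0 < T) (n : ℤ) : 0 ≤ tri T n := by
  have := Real.pi_pos
  unfold tri
  split_ifs
  · positivity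
  · have := Real.cos_le_one (n * T)
    exact div_nonneg (by linarith) (by positivity)

theorem summable_tri {T : ℝ} (hT : 0 < T) : Summable (fun n : ℤ => ‖((tri T n : ℝ) : ℂ)‖) := by
  have hpi := Real.pi_pos
  have hs : Summable (fun n : ℤ => 2 / (π * T) * (1 / ((n : ℝ) ^ 2))) :=
    ((Real.summable_one_div_int_pow (p := 2)).2 (by norm_num)).mul_left _
  refine Summable.of_norm_bounded_eventually hs ?_
  rw [Filter.eventually_cofinite]
  refine (Set.finite_singleton (0 : ℤ)).subset fun n hn => ?_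
  by_contra hcon
  apply hn
  have hn0 : n ≠ 0 := hcon
  rw [norm_norm, Complex.norm_real, Real.norm_of_nonneg (tri_nonneg hT n)]
  unfold tri
  rw [if_neg hn0]
  have h1 : (0 : ℝ) < (n : ℝ) ^ 2 := by
    have : (n : ℝ) ≠ 0 := by exact_mod_cast hn0
    positivity
  rw [div_mul_div_comm, mul_one]
  refine div_le_div_of_nonneg_right ?_ (by positivity)
  have := Real.neg_one_le_cos (n * T)
  linarith

/-- the triangle function -/
noncomputable def trf (T x : ℝ) : ℝ := max 0 (1 - |x| / T)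

theorem continuous_trf (T : ℝ) : Continuous (trf T) := by
  unfold trf
  fun_prop

theorem hasDerivAt_exp_c (c : ℂ) (t : ℝ) :
    HasDerivAt (fun t : ℝ => Complex.exp (c * t)) (Complex.exp (c * t) * c) t := by
  have h := (((hasDerivAt_id ((t : ℝ) : ℂ)).const_mul c).cexp).comp_ofReal
  simpa using h

theorem hasDerivAt_lin (a b : ℂ) (t : ℝ) :
    HasDerivAt (fun t : ℝ => a + b * (t : ℂ)) b t := by
  have h := (((hasDerivAt_id ((t : ℝ) : ℂ)).const_mul b).const_add a).comp_ofReal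
  simpa using h

/-- integral of `exp (c t) (1 + b t)` -/
theorem integral_exp_lin {c : ℂ} (hc : c ≠ 0) (b : ℂ) (u v : ℝ) :
    ∫ t in u..v, Complex.exp (c * t) * (1 + b * t)
      = Complex.exp (c * v) * ((1 - b / c) / c + b / c * v)
        - Complex.exp (c * u) * ((1 - b / c) / c + b / c * u) := by
  have hd : ∀ t : ℝ, HasDerivAt (fun t : ℝ => Complex.exp (c * t) * ((1 - b / c) / c + b / c * t))
      (Complex.exp (c * t) * (1 + b * t)) t := by
    intro t
    refine ((hasDerivAt_exp_c c t).fun_mul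
      (hasDerivAt_lin ((1 - b / c) / c) (b / c) t)).congr_deriv ?_
    field_simp
    ring
  refine intervalIntegral.integral_eq_sub_of_hasDerivAt (fun t _ => hd t) ?_
  exact Continuous.intervalIntegrable (by fun_prop) _ _

theorem integral_lin (b : ℂ) (u v : ℝ) :
    ∫ t in u..v, (1 + b * (t : ℂ)) = (v + b * v ^ 2 / 2) - (u + b * u ^ 2 / 2) := by
  have hd : ∀ t : ℝ, HasDerivAt (fun t : ℝ => (t : ℂ) * (1 + b / 2 * t)) (1 + b * t) t := by
    intro t
    have h0 : HasDerivAt (fun t : ℝ => (t : ℂ)) 1 t := by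
      simpa using (hasDerivAt_id ((t : ℝ) : ℂ)).comp_ofReal
    refine (h0.fun_mul (hasDerivAt_lin 1 (b / 2) t)).congr_deriv ?_
    ring
  rw [intervalIntegral.integral_eq_sub_of_hasDerivAt (fun t _ => hd t)
    (Continuous.intervalIntegrable (by fun_prop) _ _)]
  ring

theorem cf_trf {T : ℝ} (hT : 0 < T) (hT' : T ≤ π) (n : ℤ) :
    cf (fun x => ((trf T x : ℝ) : ℂ)) n = ((tri T n : ℝ) : ℂ) := by
  have hpi := Real.pi_pos
  have hpi' : (π : ℂ) ≠ 0 := by exact_mod_cast hpi.ne'
  have hT0 : (T : ℂ) ≠ 0 := by exact_mod_cast hT.ne'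
  rw [cf_eq]
  set g : ℝ → ℂ := fun x => Complex.exp (-(n * (x * Complex.I))) * ((trf T x : ℝ) : ℂ) with hg
  have hgc : Continuous g := by
    have := continuous_trf T
    rw [hg]
    fun_prop
  have hint : ∀ u v : ℝ, IntervalIntegrable g volume u v := fun u v => hgc.intervalIntegrable u v
  have hsplit : ∫ x in (-π)..π, g x
      = (∫ x in (-π)..(-T), g x) + (∫ x in (-T)..0, g x) + (∫ x in (0:ℝ)..T, g x)
        + ∫ x in T..π, g x := by
    rw [intervalIntegral.integral_add_adjacent_intervals (hint _ _) (hint _ _),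
      intervalIntegral.integral_add_adjacent_intervals (hint _ _) (hint _ _),
      intervalIntegral.integral_add_adjacent_intervals (hint _ _) (hint _ _)]
  have h1 : ∫ x in (-π)..(-T), g x = 0 := by
    rw [intervalIntegral.integral_congr (g := fun _ => (0 : ℂ))]
    · simp
    · intro x hx
      rw [uIcc_of_le (by linarith)] at hx
      have : trf T x = 0 := by
        unfold trf
        rw [max_eq_left]
        have h2 : T ≤ |x| := by
          rw [abs_of_nonpos (by linarith [hx.2])]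
          linarith [hx.2]
        rw [sub_nonpos, le_div_iff₀ hT]
        linarith
      simp [hg, this]
  have h4 : ∫ x in T..π, g x = 0 := by
    rw [intervalIntegral.integral_congr (g := fun _ => (0 : ℂ))]
    · simp
    · intro x hx
      rw [uIcc_of_le (by linarith)] at hx
      have : trf T x = 0 := by
        unfold trf
        rw [max_eq_left]
        have h2 : T ≤ |x| := by
          rw [abs_of_nonneg (by linarith [hx.1])]
          linarith [hx.1]
        rw [sub_nonpos, le_div_iff₀ hT]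
        linarith
      simp [hg, this]
  set c : ℂ := -(n * Complex.I) with hcdef
  have h2 : ∫ x in (-T)..0, g x = ∫ x in (-T)..0, Complex.exp (c * x) * (1 + (1 / T : ℂ) * x) := by
    refine intervalIntegral.integral_congr fun x hx => ?_
    rw [uIcc_of_le (by linarith)] at hx
    have h3 : trf T x = 1 + 1 / T * x := by
      unfold trf
      rw [abs_of_nonpos hx.2, max_eq_right]
      · ring
      · rw [sub_nonneg, div_le_one hT]
        linarith [hx.1]
    simp only [hg, h3]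
    congr 1
    · congr 1
      rw [hcdef]
      ring
    · push_cast
      ring
  have h3 : ∫ x in (0:ℝ)..T, g x = ∫ x in (0:ℝ)..T, Complex.exp (c * x) * (1 + (-1 / T : ℂ) * x) := by
    refine intervalIntegral.integral_congr fun x hx => ?_
    rw [uIcc_of_le (by linarith)] at hx
    have h3 : trf T x = 1 + -1 / T * x := by
      unfold trf
      rw [abs_of_nonneg hx.1, max_eq_right]
      · ring
      · rw [sub_nonneg, div_le_one hT]
        exact hx.2
    simp only [hg, h3]
    congr 1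
    · congr 1
      rw [hcdef]
      ring
    · push_cast
      ring
  rw [hsplit, h1, h2, h3, h4]
  unfold tri
  by_cases hn : n = 0
  · have hc0 : c = 0 := by rw [hcdef, hn]; simp
    rw [if_pos hn, hc0]
    simp only [zero_mul, Complex.exp_zero, one_mul]
    rw [integral_lin, integral_lin]
    push_cast
    field_simp
    ring
  · have hn' : (n : ℂ) ≠ 0 := by exact_mod_cast hn
    have hc0 : c ≠ 0 := by
      rw [hcdef]
      exact neg_ne_zero.2 (mul_ne_zero hn' Complex.I_ne_zero)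
    rw [if_neg hn, integral_exp_lin hc0, integral_exp_lin hc0]
    have hcos : ((Real.cos (n * T) : ℝ) : ℂ)
        = (Complex.exp (c * T) + Complex.exp (c * ((-T : ℝ) : ℂ))) / 2 := by
      rw [Complex.ofReal_cos, Complex.cos]
      rw [hcdef]
      push_cast
      rw [add_comm (Complex.exp (n * T * Complex.I))]
      congr 2
      · congr 1; ring
      · congr 1; ring
    have hcsq : c ^ 2 = -(n : ℂ) ^ 2 := by
      rw [hcdef, neg_sq, mul_pow, Complex.I_sq]
      ring
    rw [Complex.ofReal_div, Complex.ofReal_sub, hcos]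
    have e0 : Complex.exp (c * ((0:ℝ) : ℂ)) = 1 := by simp
    rw [e0]
    set E1 := Complex.exp (c * T)
    set E2 := Complex.exp (c * ((-T : ℝ) : ℂ))
    have hn2 : (n : ℂ) ^ 2 = - c ^ 2 := by rw [hcsq]; ring
    push_cast
    rw [hn2]
    field_simp
    ring


/-- Fejer kernel of width `Tp p` -/
noncomputable def Fj (p : ℕ) : W :=
  mkW (fun n => ((tri (Tp p) n : ℝ) : ℂ)) (summable_tri (Tp_pos p))

theorem co_Fj (p : ℕ) (n : ℤ) : co (Fj p) n = ((tri (Tp p) n : ℝ) : ℂ) := rfl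

theorem trf_of_le {T x : ℝ} (hT : 0 < T) (h : |x| ≤ T) : trf T x = 1 - |x| / T := by
  unfold trf
  rw [max_eq_right]
  rw [sub_nonneg, div_le_one hT]
  exact h

theorem trf_of_ge {T x : ℝ} (hT : 0 < T) (h : T ≤ |x|) : trf T x = 0 := by
  unfold trf
  rw [max_eq_left]
  rw [sub_nonpos, le_div_iff₀ hT, one_mul]
  exact h

theorem trf_nonneg (T x : ℝ) : 0 ≤ trf T x := le_max_left _ _

theorem trf_le_one {T : ℝ} (hT : 0 < T) (x : ℝ) : trf T x ≤ 1 := by
  unfold trf
  refine max_le zero_le_one ?_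
  have : 0 ≤ |x| / T := by positivity
  linarith

theorem ev_Fj {p : ℕ} (hp : 1 ≤ p) {t : ℝ} (ht : |t| ≤ Real.pi) :
    ev t (Fj p) = ((max 0 (1 - |t| / Tp p) : ℝ) : ℂ) := by
  have hT := Tp_pos p
  have hT' := Tp_le_pi hp
  have hfun : ∀ n, cf (fun x => ((trf (Tp p) x : ℝ) : ℂ)) n = ((tri (Tp p) n : ℝ) : ℂ) :=
    fun n => cf_trf hT hT' n
  have hs : Summable (fun n => ‖cf (fun x => ((trf (Tp p) x : ℝ) : ℂ)) n‖) :=
    (summable_tri hT).congr fun n => by rw [hfun]
  have h := synth (f := fun x => ((trf (Tp p) x : ℝ) : ℂ))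
    (by have := continuous_trf (Tp p); fun_prop) (by
      show ((trf (Tp p) (-π) : ℝ) : ℂ) = ((trf (Tp p) π : ℝ) : ℂ)
      unfold trf
      rw [abs_neg]) hs ht
  have he : Fj p = mkW (cf fun x => ((trf (Tp p) x : ℝ) : ℂ)) hs := ext_co fun n => by
    rw [co_Fj, co_mk, hfun]
  rw [he, h]
  rfl

theorem pos_Fj' (p : ℕ) : Pos (Fj p) :=
  pos_of_real _ (tri_nonneg (Tp_pos p)) (co_Fj p)

theorem pos_Fj {p : ℕ} (_hp : 1 ≤ p) : Pos (Fj p) := pos_Fj' p

theorem Pos.norm_eq_ev {a : W} (h : Pos a) : ((‖a‖ : ℝ) : ℂ) = ev 0 a := by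
  rw [norm_eq, ev_eq, Complex.ofReal_tsum]
  refine tsum_congr fun n => ?_
  rw [h.norm_eq' n, ← h.eq n]
  simp

theorem norm_Fj {p : ℕ} (hp : 1 ≤ p) : ‖Fj p‖ = 1 := by
  have h := (pos_Fj hp).norm_eq_ev
  rw [ev_Fj hp (by rw [abs_zero]; exact Real.pi_pos.le)] at h
  have h2 := Complex.ofReal_injective h
  rw [h2]
  simp

theorem adj_Fj {p : ℕ} (hp : 1 ≤ p) : adj (Fj p) = Fj p := ext_pi fun t ht => by
  rw [ev_adj, ev_Fj hp ht, Complex.conj_ofReal]

/-- trapezoid: `1` on `|t| ≤ Tp (p+1)`, `0` for `Tp p ≤ |t| ≤ pi` -/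
noncomputable def kap (p : ℕ) : W := (2 : ℂ) • Fj p - Fj (p + 1)

/-- positive majorant of the kernel of `kap p` -/
noncomputable def Kp (p : ℕ) : W := (2 : ℂ) • Fj p + Fj (p + 1)

theorem Tp_succ (p : ℕ) : Tp (p + 1) = Tp p / 2 := by
  rw [Tp_add, pow_one]

/-- the trapezoid function -/
noncomputable def tz (T x : ℝ) : ℝ := max 0 (min 1 (2 - 2 * |x| / T))

theorem tz_nonneg (T x : ℝ) : 0 ≤ tz T x := le_max_left _ _

theorem tz_le_one (T x : ℝ) : tz T x ≤ 1 := max_le zero_le_one (min_le_left _ _)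

theorem tz_one {T x : ℝ} (hT : 0 < T) (h : |x| ≤ T / 2) : tz T x = 1 := by
  unfold tz
  have : 1 ≤ 2 - 2 * |x| / T := by
    have : 2 * |x| / T ≤ 1 := by
      rw [div_le_one hT]
      linarith
    linarith
  rw [min_eq_left this, max_eq_right zero_le_one]

theorem tz_mid {T x : ℝ} (hT : 0 < T) (h : T / 2 ≤ |x|) (h' : |x| ≤ T) :
    tz T x = 2 - 2 * |x| / T := by
  unfold tz
  have h1 : 2 - 2 * |x| / T ≤ 1 := by
    have : 1 ≤ 2 * |x| / T := by
      rw [le_div_iff₀ hT]
      linarith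
    linarith
  have h2 : 0 ≤ 2 - 2 * |x| / T := by
    have : 2 * |x| / T ≤ 2 := by
      rw [div_le_iff₀ hT]
      linarith
    linarith
  rw [min_eq_right h1, max_eq_right h2]

theorem tz_zero {T x : ℝ} (hT : 0 < T) (h : T ≤ |x|) : tz T x = 0 := by
  unfold tz
  have h2 : 2 - 2 * |x| / T ≤ 0 := by
    have : 2 ≤ 2 * |x| / T := by
      rw [le_div_iff₀ hT]
      linarith
    linarith
  exact max_eq_left ((min_le_right _ _).trans h2)

theorem tz_eq {T : ℝ} (hT : 0 < T) (x : ℝ) : 2 * trf T x - trf (T / 2) x = tz T x := by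
  have hT2 : 0 < T / 2 := by positivity
  rcases le_total |x| (T / 2) with h | h
  · rw [trf_of_le hT (h.trans (by linarith)), trf_of_le hT2 h, tz_one hT h]
    field_simp
    ring
  · rw [trf_of_ge hT2 h]
    rcases le_total |x| T with h' | h'
    · rw [trf_of_le hT h', tz_mid hT h h']
      ring
    · rw [trf_of_ge hT h', tz_zero hT h']
      ring

/-- the trapezoid as an explicit function -/
theorem ev_kap' {p : ℕ} (hp : 1 ≤ p) {t : ℝ} (ht : |t| ≤ Real.pi) :
    ev t (kap p) = ((tz (Tp p) t : ℝ) : ℂ) := by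
  unfold kap
  rw [ev_sub, ev_smul', ev_Fj hp ht, ev_Fj (by omega) ht, ← tz_eq (Tp_pos p), Tp_succ]
  unfold trf
  push_cast
  ring

theorem ev_kap {p : ℕ} (hp : 1 ≤ p) {t : ℝ} (ht : |t| ≤ Real.pi) :
    ev t (kap p) = ((max 0 (min 1 (2 - 2 * |t| / Tp p)) : ℝ) : ℂ) := ev_kap' hp ht

theorem ev_kap_one {p : ℕ} (hp : 1 ≤ p) {t : ℝ} (ht : |t| ≤ Tp (p + 1)) : ev t (kap p) = 1 := by
  have h := Tp_le_pi (p := p + 1) (by omega)
  rw [ev_kap' hp (ht.trans h), tz_one (Tp_pos p) (by rwa [Tp_succ] at ht)]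
  simp

theorem ev_kap_zero {p : ℕ} (hp : 1 ≤ p) {t : ℝ} (ht : |t| ≤ Real.pi) (h : Tp p ≤ |t|) :
    ev t (kap p) = 0 := by
  rw [ev_kap' hp ht, tz_zero (Tp_pos p) h]
  simp

theorem ev_kap_real {p : ℕ} (hp : 1 ≤ p) (t : ℝ) :
    ∃ r : ℝ, 0 ≤ r ∧ r ≤ 1 ∧ ev t (kap p) = (r : ℂ) := by
  obtain ⟨n, hn⟩ := exists_red t
  refine ⟨tz (Tp p) (t - 2 * Real.pi * n), tz_nonneg _ _, tz_le_one _ _, ?_⟩
  rw [← ev_periodic t n, ev_kap' hp hn]

theorem adj_kap {p : ℕ} (hp : 1 ≤ p) : adj (kap p) = kap p := ext_pi fun t ht => by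
  rw [ev_adj, ev_kap' hp ht, Complex.conj_ofReal]

theorem norm_kap_le {p : ℕ} (hp : 1 ≤ p) : ‖kap p‖ ≤ 3 := by
  unfold kap
  refine (norm_sub_le _ _).trans ?_
  rw [norm_smul, norm_Fj hp, norm_Fj (by omega)]
  norm_num

theorem dom_ab_kap {p : ℕ} (_hp : 1 ≤ p) : Dom (ab (kap p)) (Kp p) := by
  rw [dom_iff]
  intro n
  have h1 := tri_nonneg (Tp_pos p) n
  have h2 := tri_nonneg (Tp_pos (p + 1)) n
  have h3 : co (kap p) n = ((2 * tri (Tp p) n - tri (Tp (p + 1)) n : ℝ) : ℂ) := by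
    unfold kap
    rw [co_sub, co_smul, co_Fj, co_Fj]
    push_cast
    ring
  have h4 : co (Kp p) n = ((2 * tri (Tp p) n + tri (Tp (p + 1)) n : ℝ) : ℂ) := by
    unfold Kp
    rw [co_add, co_smul, co_Fj, co_Fj]
    push_cast
    ring
  rw [co_ab, h3, h4, Complex.norm_real, Complex.ofReal_re, Complex.ofReal_re, Complex.ofReal_im,
    Complex.ofReal_im]
  refine ⟨?_, rfl⟩
  rw [Real.norm_eq_abs, abs_le]
  constructor <;> linarith

theorem low_kap {p : ℕ} (hp : 1 ≤ p) : Low (Tp p) (kap p) := fun _ ht h => ev_kap_zero hp ht h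

theorem high_one_sub_kap {p : ℕ} (hp : 1 ≤ p) : High (Tp (p + 1)) (1 - kap p) := fun t ht => by
  rw [ev_sub, ev_one', ev_kap_one hp ht, sub_self]

theorem kap_mul_of_low {p : ℕ} (hp : 1 ≤ p) {a : W} (ha : Low (Tp (p + 1)) a) :
    kap p * a = a := by
  have h := ha.mul_high (high_one_sub_kap hp)
  rw [mul_sub, mul_one, sub_eq_zero] at h
  rw [mul_comm, ← h]

theorem kap_mul_of_high {p : ℕ} (hp : 1 ≤ p) {a : W} (ha : High (Tp p) a) :
    kap p * a = 0 := (low_kap hp).mul_high ha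

theorem kap_mul_kap {p q : ℕ} (hp : 1 ≤ p) (hpq : p + 1 ≤ q) : kap p * kap q = kap q :=
  kap_mul_of_low hp ((low_kap (by omega)).anti (Tp_anti hpq))

theorem tz_anti {S T : ℝ} (hS : 0 < S) (hST : S ≤ T) (x : ℝ) : tz S x ≤ tz T x := by
  unfold tz
  refine max_le_max le_rfl (min_le_min le_rfl ?_)
  have : 2 * |x| / T ≤ 2 * |x| / S := div_le_div_of_nonneg_left (by positivity) hS hST
  linarith

/-- nesting of the trapezoids -/
theorem ev_kap_anti {p q : ℕ} (hp : 1 ≤ p) (hpq : p ≤ q) (t : ℝ) :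
    (ev t (kap q)).re ≤ (ev t (kap p)).re := by
  obtain ⟨n, hn⟩ := exists_red t
  rw [← ev_periodic t n, ← ev_periodic t n (kap p), ev_kap' hp hn, ev_kap' (hp.trans hpq) hn,
    Complex.ofReal_re, Complex.ofReal_re]
  exact tz_anti (Tp_pos q) (Tp_anti hpq) _


/-! ### derivative estimates -/

theorem hasDerivWithinAt_of_eq {f : ℝ → ℝ} {a b x y : ℝ} (hxy : x < y)
    (h : ∀ u, x ≤ u → u < y → f u = a + b * u) : HasDerivWithinAt f b (Ioi x) x := by
  have h1 : HasDerivWithinAt (fun u : ℝ => a + b * u) b (Ioi x) x := by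
    have := (((hasDerivAt_id x).const_mul b).const_add a).hasDerivWithinAt (s := Ioi x)
    simpa using this
  refine h1.congr_of_eventuallyEq ?_ (h x le_rfl hxy)
  filter_upwards [Ioo_mem_nhdsGT hxy] with u hu
  exact h u hu.1.le hu.2

/-- right derivative of the trapezoid -/
noncomputable def tzd (T x : ℝ) : ℝ :=
  if x < -T then 0 else if x < -(T / 2) then 2 / T else if x < T / 2 then 0
    else if x < T then -(2 / T) else 0

theorem hasDerivWithinAt_tz {T : ℝ} (hT : 0 < T) (x : ℝ) :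
    HasDerivWithinAt (tz T) (tzd T x) (Ioi x) x := by
  unfold tzd
  split_ifs with h1 h2 h3 h4
  · refine hasDerivWithinAt_of_eq (a := 0) h1 fun u hu hu' => ?_
    rw [tz_zero hT]
    · ring
    · rw [abs_of_neg (by linarith)]
      linarith
  · refine hasDerivWithinAt_of_eq (a := 2) h2 fun u hu hu' => ?_
    push Not at h1
    have h5 : |u| = -u := abs_of_neg (by linarith)
    rw [tz_mid hT (by rw [h5]; linarith) (by rw [h5]; linarith), h5]
    ring
  · refine hasDerivWithinAt_of_eq (a := 1) h3 fun u hu hu' => ?_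
    push Not at h2
    rw [tz_one hT (abs_le.2 ⟨by linarith, by linarith⟩)]
    ring
  · refine hasDerivWithinAt_of_eq (a := 2) h4 fun u hu hu' => ?_
    push Not at h3
    have h5 : |u| = u := abs_of_nonneg (by linarith)
    rw [tz_mid hT (by rw [h5]; linarith) (by rw [h5]; linarith), h5]
    ring
  · refine hasDerivWithinAt_of_eq (a := 0) (y := x + 1) (by linarith) fun u hu hu' => ?_
    push Not at h4
    rw [tz_zero hT]
    · ring
    · rw [abs_of_nonneg (by linarith)]
      linarith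

theorem abs_tzd_le {T : ℝ} (hT : 0 < T) (x : ℝ) : |tzd T x| ≤ 2 / T := by
  have h2 : 0 ≤ 2 / T := by positivity
  unfold tzd
  split_ifs
  · simpa using h2
  · rw [abs_of_nonneg h2]
  · simpa using h2
  · rw [abs_neg, abs_of_nonneg h2]
  · simpa using h2

theorem tzd_zero {T x : ℝ} (hT : 0 < T) (h : T < |x|) : tzd T x = 0 := by
  unfold tzd
  rcases lt_abs.1 h with h1 | h1
  · rw [if_neg (by linarith), if_neg (by linarith), if_neg (by linarith), if_neg (by linarith)]
  · rw [if_pos (by linarith)]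

theorem tzd_zero' {T x : ℝ} (hT : 0 < T) (h : |x| < T / 2) : tzd T x = 0 := by
  have := abs_lt.1 h
  unfold tzd
  rw [if_neg (by linarith), if_neg (by linarith), if_pos (by linarith)]

theorem continuous_tz (T : ℝ) : Continuous (tz T) := by
  unfold tz
  fun_prop

/-- tail estimate without restriction on the size of the function -/
theorem norm_res_le_sob {f f' : ℝ → ℂ} {A B T : ℝ} {a : W}
    (h : ∀ t, |t| ≤ Real.pi → ev t a = f t)
    (hT : 0 < T)
    (hf : ContinuousOn f (Icc (-Real.pi) Real.pi))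
    (hper : f (-Real.pi) = f Real.pi)
    (hd : ∀ x ∈ Ioo (-Real.pi) Real.pi, HasDerivWithinAt f (f' x) (Ioi x) x)
    (hA : ∀ x, ‖f x‖ ≤ A) (hz : ∀ x, T < |x| → f x = 0)
    (hB : ∀ x, ‖f' x‖ ≤ B) (hz' : ∀ x, T < |x| → f' x = 0) {Q : ℕ} (hQ : 0 < Q) :
    ‖res {n : ℤ | (Q : ℤ) < |n|} a‖ ≤ B * Real.sqrt (T / Q) := by
  classical
  have hA0 : 0 ≤ A := (norm_nonneg _).trans (hA 0)
  have hs : Summable (fun n => ‖cf f n‖) :=
    summable_cf (A := A + 1) (B := max (A + 1) B) hT (by linarith) (le_max_left _ _) hf hper hd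
      (fun x => (hA x).trans (by linarith)) hz (fun x => (hB x).trans (le_max_right _ _)) hz'
  have hco : ∀ n, co a n = cf f n := cf_of_ev h hf hper hs
  rw [norm_eq]
  refine (summable_co _).tsum_le_of_sum_le fun s => ?_
  rw [← Finset.sum_filter_add_sum_filter_not s (fun n => (Q : ℤ) < |n|)]
  have h1 : ∑ n ∈ s.filter (fun n => ¬ (Q : ℤ) < |n|),
      ‖co (res {n : ℤ | (Q : ℤ) < |n|} a) n‖ = 0 := by
    refine Finset.sum_eq_zero fun n hn => ?_
    have hn' : n ∉ {n : ℤ | (Q : ℤ) < |n|} := (Finset.mem_filter.1 hn).2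
    rw [co_res_of_notMem hn', norm_zero]
  have h2 : ∑ n ∈ s.filter (fun n => (Q : ℤ) < |n|),
      ‖co (res {n : ℤ | (Q : ℤ) < |n|} a) n‖
      = ∑ n ∈ s.filter (fun n => (Q : ℤ) < |n|), ‖cf f n‖ := by
    refine Finset.sum_congr rfl fun n hn => ?_
    have hn' : n ∈ {n : ℤ | (Q : ℤ) < |n|} := (Finset.mem_filter.1 hn).2
    rw [co_res_of_mem hn', hco]
  rw [h1, h2, add_zero]
  exact cf_tail_finset hT hf hper hd hB hz' hQ _ fun n hn => (Finset.mem_filter.1 hn).2

theorem tail_kap {p : ℕ} (hp : 1 ≤ p) {Q : ℕ} (hQ : 0 < Q) :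
    ‖res {n : ℤ | (Q : ℤ) < |n|} (kap p)‖ ≤ 3 * Real.sqrt (2 ^ p / Q) := by
  have hT := Tp_pos p
  have hQ' : (0 : ℝ) < Q := by exact_mod_cast hQ
  have h := norm_res_le_sob (a := kap p) (f := fun x => ((tz (Tp p) x : ℝ) : ℂ))
    (f' := fun x => ((tzd (Tp p) x : ℝ) : ℂ)) (A := 1) (B := 2 / Tp p) (T := Tp p)
    (fun t ht => ev_kap' hp ht) hT
    (by have := continuous_tz (Tp p); fun_prop)
    (by
      show ((tz (Tp p) (-π) : ℝ) : ℂ) = ((tz (Tp p) π : ℝ) : ℂ)
      unfold tz
      rw [abs_neg])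
    (fun x _ => (hasDerivWithinAt_tz hT x).ofReal_comp)
    (fun x => by
      rw [Complex.norm_real, Real.norm_of_nonneg (tz_nonneg _ _)]
      exact tz_le_one _ _)
    (fun x hx => by
      show ((tz (Tp p) x : ℝ) : ℂ) = 0
      rw [tz_zero hT hx.le]
      simp)
    (fun x => by
      rw [Complex.norm_real, Real.norm_eq_abs]
      exact abs_tzd_le hT x)
    (fun x hx => by
      show ((tzd (Tp p) x : ℝ) : ℂ) = 0
      rw [tzd_zero hT hx]
      simp) hQ
  refine h.trans ?_
  have h3 : (3 : ℝ) * Real.sqrt (2 ^ p / Q) = Real.sqrt (9 * (2 ^ p / Q)) := by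
    rw [Real.sqrt_mul (by norm_num : (0:ℝ) ≤ 9), show (9 : ℝ) = 3 ^ 2 by norm_num,
      Real.sqrt_sq (by norm_num)]
  have h4 : 0 ≤ 2 / Tp p := by positivity
  rw [h3, ← Real.sqrt_sq h4, ← Real.sqrt_mul (by positivity)]
  apply Real.sqrt_le_sqrt
  have hpi := Real.pi_gt_three
  have h5 : (2 / Tp p) ^ 2 * (Tp p / Q) = (2 / π) * (2 ^ p / Q) := by
    unfold Tp
    field_simp
  rw [h5]
  refine mul_le_mul_of_nonneg_right ?_ (by positivity)
  rw [div_le_iff₀ (by linarith)]
  linarith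


theorem hasDerivAt_exp_int (n : ℤ) (x : ℝ) :
    HasDerivAt (fun x : ℝ => Complex.exp (n * (x * Complex.I)))
      (n * Complex.I * Complex.exp (n * (x * Complex.I))) x := by
  have h := hasDerivAt_exp_c ((n : ℂ) * Complex.I) x
  have he : (fun t : ℝ => Complex.exp (n * Complex.I * t))
      = fun x : ℝ => Complex.exp (n * (x * Complex.I)) := by
    funext t
    congr 1
    ring
  rw [he] at h
  refine h.congr_deriv ?_
  rw [show (n : ℂ) * Complex.I * x = n * (x * Complex.I) by ring]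
  ring

theorem norm_exp_int (n : ℤ) (x : ℝ) : ‖Complex.exp (n * (x * Complex.I))‖ = 1 := by
  rw [show (n : ℂ) * (x * Complex.I) = ((n * x : ℝ) : ℂ) * Complex.I by push_cast; ring,
    Complex.norm_exp_ofReal_mul_I]

theorem norm_one_sub_exp_le (n : ℤ) (x : ℝ) :
    ‖1 - Complex.exp (n * (x * Complex.I))‖ ≤ |(n : ℝ)| * |x| := by
  rw [norm_sub_rev, show (n : ℂ) * (x * Complex.I) = Complex.I * ((n * x : ℝ) : ℂ) by
    push_cast; ring, ← abs_mul, ← Real.norm_eq_abs]
  exact Real.norm_exp_I_mul_ofReal_sub_one_le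

theorem abs_mul_tz_le {T : ℝ} (hT : 0 < T) (x : ℝ) : |x| * tz T x ≤ T / 2 := by
  rcases le_total |x| (T / 2) with h | h
  · rw [tz_one hT h, mul_one]
    exact h
  · rcases le_total |x| T with h' | h'
    · rw [tz_mid hT h h']
      have h1 : |x| * (2 - 2 * |x| / T) = (2 * |x| * (T - |x|)) / T := by
        field_simp
      rw [h1, div_le_iff₀ hT]
      nlinarith [sq_nonneg (T - 2 * |x|)]
    · rw [tz_zero hT h', mul_zero]
      positivity

theorem tz_add_tzd_le {T : ℝ} (hT : 0 < T) (x : ℝ) : tz T x + |x| * |tzd T x| ≤ 2 := by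
  rcases lt_or_ge |x| (T / 2) with h | h
  · rw [tzd_zero' hT h]
    have := tz_le_one T x
    simp only [abs_zero, mul_zero, add_zero]
    linarith
  · rcases le_or_gt |x| T with h' | h'
    · rw [tz_mid hT h h']
      have h1 := mul_le_mul_of_nonneg_left (abs_tzd_le hT x) (abs_nonneg x)
      have h2 : |x| * (2 / T) = 2 * |x| / T := by ring
      linarith
    · rw [tz_zero hT h'.le, tzd_zero hT h']
      simp

theorem norm_one_sub_mono_mul_kap {q : ℕ} (hq : 1 ≤ q) (n : ℤ) :
    ‖(1 - mono n) * kap q‖ ≤ 20 * |(n : ℝ)| / 2 ^ q := by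
  rcases eq_or_ne n 0 with hn | hn
  · subst hn
    rw [mono_zero, sub_self, zero_mul, norm_zero]
    simp
  have hn' : 0 < |(n : ℝ)| := abs_pos.2 (by exact_mod_cast hn)
  have hT := Tp_pos q
  have hTpi := Tp_le_pi hq
  have hpi4 := Real.pi_lt_four
  have hct := continuous_tz (Tp q)
  have h := (norm_le_sob (a := (1 - mono n) * kap q)
    (f := fun x => (1 - Complex.exp (n * (x * Complex.I))) * ((tz (Tp q) x : ℝ) : ℂ))
    (f' := fun x => -(n * Complex.I * Complex.exp (n * (x * Complex.I))) * ((tz (Tp q) x : ℝ) : ℂ)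
      + (1 - Complex.exp (n * (x * Complex.I))) * ((tzd (Tp q) x : ℝ) : ℂ))
    (A := |(n : ℝ)| * (Tp q / 2)) (B := |(n : ℝ)| * 2) (T := Tp q)
    (fun t ht => by
      rw [ev_mul', ev_sub, ev_one', ev_mono, ev_kap' hq ht]) hT (by positivity)
    (mul_le_mul_of_nonneg_left (by linarith) hn'.le)
    (by fun_prop)
    (by
      show _ * ((tz (Tp q) (-π) : ℝ) : ℂ) = _ * ((tz (Tp q) π : ℝ) : ℂ)
      rw [tz_zero hT (by rw [abs_neg, abs_of_pos Real.pi_pos]; exact hTpi),
        tz_zero hT (by rw [abs_of_pos Real.pi_pos]; exact hTpi)]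
      simp)
    (fun x _ => by
      have h1 : HasDerivWithinAt (fun x : ℝ => 1 - Complex.exp (n * (x * Complex.I)))
          (-(n * Complex.I * Complex.exp (n * (x * Complex.I)))) (Ioi x) x := by
        have := ((hasDerivAt_exp_int n x).const_sub 1).hasDerivWithinAt (s := Ioi x)
        exact this
      exact h1.fun_mul (hasDerivWithinAt_tz hT x).ofReal_comp)
    (fun x => by
      rw [norm_mul, Complex.norm_real, Real.norm_of_nonneg (tz_nonneg _ _)]
      calc ‖1 - Complex.exp (n * (x * Complex.I))‖ * tz (Tp q) x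
          ≤ (|(n : ℝ)| * |x|) * tz (Tp q) x :=
            mul_le_mul_of_nonneg_right (norm_one_sub_exp_le n x) (tz_nonneg _ _)
        _ = |(n : ℝ)| * (|x| * tz (Tp q) x) := by ring
        _ ≤ _ := mul_le_mul_of_nonneg_left (abs_mul_tz_le hT x) hn'.le)
    (fun x hx => by
      show _ * ((tz (Tp q) x : ℝ) : ℂ) = 0
      rw [tz_zero hT hx.le]
      simp)
    (fun x => by
      refine (norm_add_le _ _).trans ?_
      rw [norm_mul, norm_mul, norm_neg, norm_mul, norm_mul, norm_exp_int, Complex.norm_I,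
        Complex.norm_intCast, Complex.norm_real, Real.norm_of_nonneg (tz_nonneg _ _),
        Complex.norm_real, Real.norm_eq_abs, mul_one, mul_one]
      calc |(n : ℝ)| * tz (Tp q) x + ‖1 - Complex.exp (n * (x * Complex.I))‖ * |tzd (Tp q) x|
          ≤ |(n : ℝ)| * tz (Tp q) x + (|(n : ℝ)| * |x|) * |tzd (Tp q) x| :=
            add_le_add le_rfl
              (mul_le_mul_of_nonneg_right (norm_one_sub_exp_le n x) (abs_nonneg _))
        _ = |(n : ℝ)| * (tz (Tp q) x + |x| * |tzd (Tp q) x|) := by ring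
        _ ≤ _ := mul_le_mul_of_nonneg_left (tz_add_tzd_le hT x) hn'.le)
    (fun x hx => by
      show _ * ((tz (Tp q) x : ℝ) : ℂ) + _ * ((tzd (Tp q) x : ℝ) : ℂ) = 0
      rw [tz_zero hT hx.le, tzd_zero hT hx]
      simp)).1
  refine h.trans ?_
  have h1 : |(n : ℝ)| * (Tp q / 2) * (|(n : ℝ)| * 2) * Tp q = (|(n : ℝ)| * Tp q) ^ 2 := by ring
  rw [h1, Real.sqrt_sq (by positivity)]
  have h2 : 3 * (|(n : ℝ)| * Tp q) = (6 * π) * |(n : ℝ)| / 2 ^ q := by
    unfold Tp
    ring
  rw [h2]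
  refine div_le_div_of_nonneg_right ?_ (by positivity)
  refine mul_le_mul_of_nonneg_right ?_ hn'.le
  have := Real.pi_lt_d2
  linarith

/-! ### product of a Fejer kernel and the complement of a larger one -/

/-- `|x| * trf T x`, the profile -/
noncomputable def pf (T x : ℝ) : ℝ := |x| * trf T x

/-- its right derivative -/
noncomputable def pfd (T x : ℝ) : ℝ :=
  if x < -T then 0 else if x < 0 then -1 - 2 * x / T else if x < T then 1 - 2 * x / T else 0

theorem hasDerivWithinAt_pf {T : ℝ} (hT : 0 < T) (x : ℝ) :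
    HasDerivWithinAt (pf T) (pfd T x) (Ioi x) x := by
  have hquad : ∀ (s : ℝ) (y : ℝ), x < y → (∀ u, x ≤ u → u < y → pf T u = s * u - u ^ 2 / T) →
      HasDerivWithinAt (pf T) (s - 2 * x / T) (Ioi x) x := by
    intro s y hxy h
    have h1 : HasDerivWithinAt (fun u : ℝ => s * u - u ^ 2 / T) (s - 2 * x / T) (Ioi x) x := by
      have := (((hasDerivAt_id x).const_mul s).sub
        (((hasDerivAt_id x).pow 2).div_const T)).hasDerivWithinAt (s := Ioi x)
      refine (this.congr_deriv ?_)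
      simp
    refine h1.congr_of_eventuallyEq ?_ (h x le_rfl hxy)
    filter_upwards [Ioo_mem_nhdsGT hxy] with u hu
    exact h u hu.1.le hu.2
  unfold pfd
  split_ifs with h1 h2 h3
  · refine hasDerivWithinAt_of_eq (a := 0) h1 fun u hu hu' => ?_
    unfold pf
    rw [trf_of_ge hT]
    · ring
    · rw [abs_of_neg (by linarith)]
      linarith
  · refine hquad (-1) 0 h2 fun u hu hu' => ?_
    push Not at h1
    have h5 : |u| = -u := abs_of_neg hu'
    unfold pf
    rw [trf_of_le hT (by rw [h5]; linarith), h5]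
    ring
  · refine hquad 1 T h3 fun u hu hu' => ?_
    push Not at h2
    have h5 : |u| = u := abs_of_nonneg (by linarith)
    unfold pf
    rw [trf_of_le hT (by rw [h5]; linarith), h5]
    ring
  · refine hasDerivWithinAt_of_eq (a := 0) (y := x + 1) (by linarith) fun u hu hu' => ?_
    push Not at h3
    unfold pf
    rw [trf_of_ge hT]
    · ring
    · rw [abs_of_nonneg (by linarith)]
      linarith

theorem abs_pfd_le {T : ℝ} (hT : 0 < T) (x : ℝ) : |pfd T x| ≤ 1 := by
  unfold pfd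
  split_ifs with h1 h2 h3
  · simp
  · push Not at h1
    have h4 : 2 * x / T ≤ 0 := by
      rw [div_le_iff₀ hT]
      linarith
    have h5 : -2 ≤ 2 * x / T := by
      rw [le_div_iff₀ hT]
      linarith
    rw [abs_le]
    constructor <;> linarith
  · push Not at h2
    have h4 : 0 ≤ 2 * x / T := by positivity
    have h5 : 2 * x / T ≤ 2 := by
      rw [div_le_iff₀ hT]
      linarith
    rw [abs_le]
    constructor <;> linarith
  · simp

theorem pfd_zero {T x : ℝ} (hT : 0 < T) (h : T < |x|) : pfd T x = 0 := by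
  unfold pfd
  rcases lt_abs.1 h with h1 | h1
  · rw [if_neg (by linarith), if_neg (by linarith), if_neg (by linarith)]
  · rw [if_pos (by linarith)]

theorem pf_nonneg (T x : ℝ) : 0 ≤ pf T x := mul_nonneg (abs_nonneg _) (trf_nonneg _ _)

theorem pf_le {T : ℝ} (hT : 0 < T) (x : ℝ) : pf T x ≤ T / 4 := by
  unfold pf
  rcases le_total |x| T with h' | h'
  · rw [trf_of_le hT h']
    have h1 : |x| * (1 - |x| / T) = (|x| * (T - |x|)) / T := by
      field_simp
    rw [h1, div_le_iff₀ hT]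
    nlinarith [sq_nonneg (T - 2 * |x|)]
  · rw [trf_of_ge hT h', mul_zero]
    positivity

theorem continuous_pf (T : ℝ) : Continuous (pf T) := by
  have := continuous_trf T
  unfold pf
  fun_prop

theorem norm_FF' {p q : ℕ} (hp : 1 ≤ p) (h : p ≤ q) :
    ‖(1 - Fj p) * Fj q‖ ≤ 3 / 2 * (Tp q / Tp p) := by
  have hS := Tp_pos p
  have hT := Tp_pos q
  have hTS := Tp_anti h
  have hTpi := Tp_le_pi (hp.trans h)
  have hpi4 := Real.pi_lt_four
  have hct := continuous_pf (Tp q)
  have h := (norm_le_sob (a := (1 - Fj p) * Fj q)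
    (f := fun x => ((1 / Tp p * pf (Tp q) x : ℝ) : ℂ))
    (f' := fun x => ((1 / Tp p * pfd (Tp q) x : ℝ) : ℂ))
    (A := 1 / Tp p * (Tp q / 4)) (B := 1 / Tp p) (T := Tp q)
    (fun t ht => by
      rw [ev_mul', ev_sub, ev_one', ev_Fj hp ht, ev_Fj (hp.trans h) ht]
      change (1 - ((trf (Tp p) t : ℝ) : ℂ)) * ((trf (Tp q) t : ℝ) : ℂ) = _
      rw [← Complex.ofReal_one, ← Complex.ofReal_sub, ← Complex.ofReal_mul]
      congr 1
      unfold pf
      rcases le_total |t| (Tp q) with h1 | h1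
      · rw [trf_of_le hS (h1.trans hTS)]
        ring
      · rw [trf_of_ge hT h1]
        ring) hT (by positivity)
    (by
      rw [mul_comm]
      exact mul_le_of_le_one_left (by positivity) (by linarith))
    (by fun_prop)
    (by
      show ((1 / Tp p * pf (Tp q) (-π) : ℝ) : ℂ) = ((1 / Tp p * pf (Tp q) π : ℝ) : ℂ)
      unfold pf trf
      rw [abs_neg])
    (fun x _ => ((hasDerivWithinAt_pf hT x).const_mul (1 / Tp p)).ofReal_comp)
    (fun x => by
      rw [Complex.norm_real, Real.norm_of_nonneg (mul_nonneg (by positivity) (pf_nonneg _ _))]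
      exact mul_le_mul_of_nonneg_left (pf_le hT x) (by positivity))
    (fun x hx => by
      show ((1 / Tp p * pf (Tp q) x : ℝ) : ℂ) = 0
      unfold pf
      rw [trf_of_ge hT hx.le]
      simp)
    (fun x => by
      rw [Complex.norm_real, Real.norm_eq_abs, abs_mul, abs_of_pos (by positivity : 0 < 1 / Tp p)]
      exact mul_le_of_le_one_right (by positivity) (abs_pfd_le hT x))
    (fun x hx => by
      show ((1 / Tp p * pfd (Tp q) x : ℝ) : ℂ) = 0
      rw [pfd_zero hT hx]
      simp)).1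
  refine h.trans (le_of_eq ?_)
  have h1 : 1 / Tp p * (Tp q / 4) * (1 / Tp p) * Tp q = (Tp q / Tp p / 2) ^ 2 := by
    field_simp
    norm_num
  rw [h1, Real.sqrt_sq (by positivity)]
  ring

theorem norm_FF {p d q : ℕ} (hp : 1 ≤ p) (h : p + d ≤ q) :
    ‖(1 - Fj p) * Fj q‖ ≤ 5 * (1 / 2 : ℝ) ^ d := by
  refine (norm_FF' hp (by omega : p ≤ q)).trans ?_
  have hS := Tp_pos p
  have h1 : Tp q / Tp p ≤ (1 / 2 : ℝ) ^ d := by
    rw [div_le_iff₀ hS]
    refine (Tp_anti h).trans (le_of_eq ?_)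
    rw [Tp_add, one_div, inv_pow]
    field_simp
  have h2 : (0 : ℝ) ≤ (1 / 2) ^ d := by positivity
  linarith

end Pool.Agent.H47.Vin
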