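import Pool.Agent.H36.Vin.Interp
import Pool.Agent.H47.Vin.L
import Pool.Agent.H20.Vin.Disc

/-!
# Assembly of the final statement
-/

namespace Pool.Agent.H36.Vin

open Pool.Agent.H47.Vin Pool.Agent.H20.Vin
open MeasureTheory Filter Topology Metric
open scoped ENNReal NNReal ComplexConjugate BigOperators

/-- partial sums of the nonnegative coefficients -/
noncomputable def ps (b : W) (n : ℤ) : ℂ :=
  if 0 ≤ n then ∑ j ∈ Finset.range (n.toNat + 1), co b j else 0

theorem co_one_sub_mul (A : W) (n : ℤ) : co ((1 - mono 1) * A) n = co A n - co A (n - 1) := by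
  rw [sub_mul, one_mul, co_sub, co_mono_mul]

theorem co_eq_ps {A : W} (hA : Ge 0 A) (n : ℤ) : co A n = ps ((1 - mono 1) * A) n := by
  unfold ps
  split_ifs with hn
  · obtain ⟨m, rfl⟩ := Int.eq_ofNat_of_zero_le hn
    rw [Int.toNat_natCast]
    induction m with
    | zero =>
        rw [Finset.sum_range_succ, Finset.sum_range_zero, zero_add, co_one_sub_mul]
        have : co A (((0 : ℕ) : ℤ) - 1) = 0 := hA _ (by norm_num)
        rw [this, sub_zero]
    | succ m ih =>
        rw [Finset.sum_range_succ, ← ih (by positivity), co_one_sub_mul]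
        push_cast
        rw [add_sub_cancel_right]
        ring
  · exact hA n (not_le.1 hn)

theorem tendsto_ps {B : ℕ → W} {b : W} (h : Tendsto B atTop (𝓝 b)) (n : ℤ) :
    Tendsto (fun K => ps (B K) n) atTop (𝓝 (ps b n)) := by
  unfold ps
  split_ifs with hn
  · refine tendsto_finsetSum _ fun j _ => ?_
    exact ((continuous_co (j : ℤ)).tendsto b).comp h
  · exact tendsto_const_nhds

theorem co_sum' {ι : Type*} (s : Finset ι) (a : ι → W) (n : ℤ) :
    co (∑ i ∈ s, a i) n = ∑ i ∈ s, co (a i) n := by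
  classical
  induction s using Finset.induction_on with
  | empty => simp [co_zero]
  | insert i s hi ih => rw [Finset.sum_insert hi, Finset.sum_insert hi, co_add, ih]

/-- the finitely supported element -/
noncomputable def fw (S : Finset ℤ) (f : ℤ → ℂ) : W := ∑ k ∈ S, f k • mono k

theorem co_fw (S : Finset ℤ) (f : ℤ → ℂ) (n : ℤ) : co (fw S f) n = if n ∈ S then f n else 0 := by
  classical
  unfold fw
  rw [co_sum']
  simp only [co_smul, co_mono]
  simp

theorem n4_fw (S : Finset ℤ) (f : ℤ → ℂ) : n4 (fw S f) ^ 4 = ∑ k ∈ S, ‖f k‖ ^ 4 := by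
  classical
  rw [n4_pow, tsum_eq_sum (s := S)]
  · refine Finset.sum_congr rfl fun k hk => ?_
    rw [co_fw, if_pos hk]
  · intro k hk
    rw [co_fw, if_neg hk]
    simp

theorem co_mul_fw (A : W) (S : Finset ℤ) (f : ℤ → ℂ) (n : ℤ) :
    co (A * fw S f) n = ∑ k ∈ S, co A (n - k) * f k := by
  unfold fw
  rw [Finset.mul_sum, co_sum']
  refine Finset.sum_congr rfl fun k _ => ?_
  rw [mul_smul_comm, co_smul, mul_comm A, co_mono_mul, mul_comm]

theorem rmult_ps {C : ℝ} {B : W} {A : ℕ → W} (hA : ∀ K, Ge 0 (A K))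
    (hlim : Tendsto (fun K => (1 - mono 1) * A K) atTop (𝓝 B))
    (hn4 : ∀ K f, n4 (A K * f) ≤ C * n4 f) : RMult 4 C (ps B) := by
  intro S T f
  have h4 : ∀ x : ℝ, x ^ (4 : ℝ) = x ^ (4 : ℕ) := fun x => by
    rw [← Real.rpow_natCast]
    norm_num
  simp only [h4]
  have hl : Tendsto (fun K => ∑ n ∈ T, ‖∑ k ∈ S, co (A K) (n - k) * f k‖ ^ 4) atTop
      (𝓝 (∑ n ∈ T, ‖∑ k ∈ S, ps B (n - k) * f k‖ ^ 4)) := by
    refine tendsto_finsetSum _ fun n _ => ?_
    refine Tendsto.pow (Tendsto.norm ?_) 4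
    refine tendsto_finsetSum _ fun k _ => ?_
    refine Tendsto.mul_const _ ?_
    have := tendsto_ps hlim (n - k)
    refine this.congr fun K => ?_
    rw [← co_eq_ps (hA K)]
  refine le_of_tendsto hl (Eventually.of_forall fun K => ?_)
  calc ∑ n ∈ T, ‖∑ k ∈ S, co (A K) (n - k) * f k‖ ^ 4
      = ∑ n ∈ T, ‖co (A K * fw S f) n‖ ^ 4 := by
        refine Finset.sum_congr rfl fun n _ => ?_
        rw [co_mul_fw]
    _ ≤ n4 (A K * fw S f) ^ 4 := by
        rw [n4_pow]
        exact (summable_four _).sum_le_tsum T fun _ _ => by positivity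
    _ ≤ (C * n4 (fw S f)) ^ 4 := pow_le_pow_left₀ (n4_nonneg _) (hn4 K _) 4
    _ = C ^ 4 * ∑ k ∈ S, ‖f k‖ ^ 4 := by rw [mul_pow, n4_fw]

/-! ### Fourier coefficients of the boundary function -/

theorem cpt_periodic (t : ℝ) (n : ℤ) : cpt (t + n * (2 * Real.pi)) = cpt t := by
  unfold cpt
  rw [show ((t + n * (2 * Real.pi) : ℝ) : ℂ) * Complex.I
    = t * Complex.I + n * (2 * Real.pi * Complex.I) by push_cast; ring, Complex.exp_add,
    Complex.exp_int_mul_two_pi_mul_I, mul_one]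

theorem norm_cpt (t : ℝ) : ‖cpt t‖ = 1 := Complex.norm_exp_ofReal_mul_I t

theorem cpt_ne_one_ae : ∀ᵐ t : ℝ, cpt t ≠ 1 := by
  have hc : (Set.range fun n : ℤ => (n : ℝ) * (2 * Real.pi)).Countable := Set.countable_range _
  have h0 := hc.measure_zero volume
  refine measure_mono_null (fun t ht => ?_) h0
  simp only [ne_eq, Set.mem_compl_iff, Set.mem_ofPred_eq, not_not] at ht
  unfold cpt at ht
  rw [Complex.exp_eq_one_iff] at ht
  obtain ⟨n, hn⟩ := ht
  refine ⟨n, ?_⟩
  have h1 : (t : ℂ) = n * (2 * Real.pi) := by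
    have h2 : (t : ℂ) * Complex.I = (n * (2 * Real.pi)) * Complex.I := by rw [hn]; ring
    exact mul_right_cancel₀ Complex.I_ne_zero h2
  have h3 : ((t : ℝ) : ℂ) = ((n * (2 * Real.pi) : ℝ) : ℂ) := by rw [h1]; push_cast; ring
  exact (Complex.ofReal_injective h3).symm

theorem fhat_eq (F : ℝ → ℂ) (n : ℤ) : fhat F n = fourierCoeffOn Real.two_pi_pos F n := by
  unfold fhat
  rw [fourierCoeffOn_eq_integral]
  have h1 : ∀ x : ℝ, fourier (-n) (x : AddCircle (2 * Real.pi - 0)) • F x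
      = F x * Complex.exp (-(n * x * Complex.I)) := by
    intro x
    rw [fourier_coe_apply, smul_eq_mul, mul_comm]
    congr 2
    have : (Real.pi : ℂ) ≠ 0 := by exact_mod_cast Real.pi_ne_zero
    push_cast
    field_simp
    ring
  simp_rw [h1]
  rw [Complex.real_smul]
  congr 1
  push_cast
  ring

section coeffs

variable {F : ℝ → ℂ} {B : W} {M : ℝ}

theorem fhat_sub (hm : AEStronglyMeasurable F (volume.restrict (Set.Ioc 0 (2 * Real.pi))))
    (hb : ∀ t, ‖F t‖ ≤ M)
    (hF : ∀ t, cpt t ≠ 1 → (1 - cpt t) * F t = ev t B) (n : ℤ) :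
    fhat F n - fhat F (n - 1) = co B n := by
  have hpi : (Real.pi : ℂ) ≠ 0 := by exact_mod_cast Real.pi_ne_zero
  have hint : ∀ m : ℤ, IntervalIntegrable (fun t : ℝ => F t * Complex.exp (-(m * t * Complex.I)))
      volume 0 (2 * Real.pi) := by
    intro m
    rw [intervalIntegrable_iff, Set.uIoc_of_le Real.two_pi_pos.le]
    refine Integrable.of_bound (hm.mul ?_) M (Eventually.of_forall fun t => ?_)
    · exact Continuous.aestronglyMeasurable (by fun_prop)
    · rw [norm_mul, show -(m * (t : ℂ) * Complex.I) = ((-(m * t) : ℝ) : ℂ) * Complex.I by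
        push_cast; ring, Complex.norm_exp_ofReal_mul_I, mul_one]
      exact hb t
  unfold fhat
  rw [← mul_sub, ← intervalIntegral.integral_sub (hint n) (hint (n - 1))]
  have h1 : ∫ t in (0 : ℝ)..(2 * Real.pi), (F t * Complex.exp (-(n * t * Complex.I))
      - F t * Complex.exp (-(((n - 1 : ℤ) : ℂ) * t * Complex.I)))
      = ∫ t in (0 : ℝ)..(2 * Real.pi), ev t B * Complex.exp (-(n * (t * Complex.I))) := by
    refine intervalIntegral.integral_congr_ae ?_
    filter_upwards [cpt_ne_one_ae] with t ht _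
    rw [← hF t ht, ← mul_sub]
    have h2 : Complex.exp (-(((n - 1 : ℤ) : ℂ) * t * Complex.I))
        = Complex.exp (-(n * t * Complex.I)) * cpt t := by
      unfold cpt
      rw [← Complex.exp_add]
      congr 1
      push_cast
      ring
    rw [h2, show -((n : ℂ) * (t * Complex.I)) = -(n * t * Complex.I) by ring]
    ring
  rw [h1, co_eq_integral]
  field_simp

theorem fhat_tendsto_zero (hm : AEStronglyMeasurable F (volume.restrict (Set.Ioc 0 (2 * Real.pi))))
    (hb : ∀ t, ‖F t‖ ≤ M) : Tendsto (fun n : ℤ => ‖fhat F n‖ ^ 2) cofinite (𝓝 0) := by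
  have hL2 : MemLp F 2 (volume.restrict (Set.Ioc 0 (2 * Real.pi))) :=
    MemLp.of_bound hm M (Eventually.of_forall hb)
  have h := hasSum_sq_fourierCoeffOn Real.two_pi_pos hL2
  have h2 := h.summable.tendsto_cofinite_zero
  refine h2.congr fun n => ?_
  rw [fhat_eq]

theorem fhat_neg (hB : Ge 0 B)
    (hm : AEStronglyMeasurable F (volume.restrict (Set.Ioc 0 (2 * Real.pi))))
    (hb : ∀ t, ‖F t‖ ≤ M)
    (hF : ∀ t, cpt t ≠ 1 → (1 - cpt t) * F t = ev t B) {n : ℤ} (hn : n < 0) :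
    fhat F n = 0 := by
  have h1 : ∀ m : ℕ, fhat F (n - m) = fhat F n := by
    intro m
    induction m with
    | zero => simp
    | succ m ih =>
        have h := fhat_sub hm hb hF (n - m)
        rw [hB _ (by omega), sub_eq_zero] at h
        rw [← ih, h]
        congr 1
        push_cast
        ring
  have h2 : Tendsto (fun m : ℕ => n - (m : ℤ)) atTop cofinite := by
    have hinj : Function.Injective fun m : ℕ => n - (m : ℤ) := by
      intro a b hab
      simpa using hab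
    rw [← Nat.cofinite_eq_atTop]
    exact hinj.tendsto_cofinite
  have h3 := (fhat_tendsto_zero hm hb).comp h2
  have h4 : Tendsto (fun _ : ℕ => ‖fhat F n‖ ^ 2) atTop (𝓝 0) := by
    refine h3.congr fun m => ?_
    show ‖fhat F (n - m)‖ ^ 2 = _
    rw [h1]
  have h5 := tendsto_nhds_unique h4 tendsto_const_nhds
  have h6 : ‖fhat F n‖ = 0 := by
    have : ‖fhat F n‖ ^ 2 = 0 := h5.symm
    exact pow_eq_zero_iff two_ne_zero |>.1 this
  exact norm_eq_zero.1 h6

theorem fhat_eq_ps (hB : Ge 0 B)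
    (hm : AEStronglyMeasurable F (volume.restrict (Set.Ioc 0 (2 * Real.pi))))
    (hb : ∀ t, ‖F t‖ ≤ M)
    (hF : ∀ t, cpt t ≠ 1 → (1 - cpt t) * F t = ev t B) (n : ℤ) :
    fhat F n = ps B n := by
  unfold ps
  split_ifs with hn
  · obtain ⟨m, rfl⟩ := Int.eq_ofNat_of_zero_le hn
    rw [Int.toNat_natCast]
    induction m with
    | zero =>
        rw [Finset.sum_range_succ, Finset.sum_range_zero, zero_add]
        have h := fhat_sub hm hb hF ((0 : ℕ) : ℤ)
        have h0 : fhat F (((0 : ℕ) : ℤ) - 1) = 0 := fhat_neg hB hm hb hF (by norm_num)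
        rw [h0, sub_zero] at h
        exact h
    | succ m ih =>
        rw [Finset.sum_range_succ, ← ih (by positivity)]
        have h := fhat_sub hm hb hF ((m + 1 : ℕ) : ℤ)
        rw [← h]
        push_cast
        rw [add_sub_cancel_right]
        ring
  · exact fhat_neg hB hm hb hF (not_le.1 hn)

end coeffs

/-! ### boundary functions -/

theorem isBdry_of_continuousOn {T : ℂ → ℂ} (hTc : ContinuousOn T (closedBall 0 1 \ {1})) :
    IsBdry T (fun t => T (cpt t)) := by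
  unfold IsBdry
  filter_upwards [cpt_ne_one_ae] with t ht
  have hmem : cpt t ∈ closedBall (0:ℂ) 1 \ {1} := ⟨by
    rw [mem_closedBall_zero_iff, norm_cpt], ht⟩
  have h1 := (hTc (cpt t) hmem).tendsto
  refine h1.comp ?_
  refine tendsto_nhdsWithin_iff.2 ⟨?_, ?_⟩
  · have h2 : Tendsto (fun r : ℝ => (r : ℂ) * cpt t) (𝓝 1) (𝓝 (((1:ℝ) : ℂ) * cpt t)) :=
      (Complex.continuous_ofReal.mul continuous_const).tendsto 1
    rw [Complex.ofReal_one, one_mul] at h2
    exact h2.mono_left nhdsWithin_le_nhds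
  · have h3 : ∀ᶠ r : ℝ in 𝓝[<] 1, r ∈ Set.Ioo (0:ℝ) 1 := Ioo_mem_nhdsLT one_pos
    filter_upwards [h3] with r hr
    have hn : ‖(r : ℂ) * cpt t‖ = r := by
      rw [norm_mul, norm_cpt, mul_one, Complex.norm_real, Real.norm_of_nonneg hr.1.le]
    refine ⟨by rw [mem_closedBall_zero_iff, hn]; exact hr.2.le, ?_⟩
    intro h
    rw [Set.mem_singleton_iff] at h
    rw [h, norm_one] at hn
    linarith [hr.2]

theorem isInner_of_continuousOn {T : ℂ → ℂ} (hTd : DifferentiableOn ℂ T (ball 0 1))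
    (hTc : ContinuousOn T (closedBall 0 1 \ {1})) (hTb : ∀ z, ‖z‖ < 1 → ‖T z‖ ≤ 1)
    (hT1 : ∀ z, ‖z‖ = 1 → z ≠ 1 → ‖T z‖ = 1) : IsInner T := by
  refine ⟨hTd, ⟨1, fun z hz => hTb z (by simpa using hz)⟩, _, isBdry_of_continuousOn hTc, ?_⟩
  filter_upwards [cpt_ne_one_ae] with t ht
  exact hT1 _ (norm_cpt t) ht

theorem measurable_bdry {T : ℂ → ℂ} (hTc : ContinuousOn T (closedBall 0 1 \ {1})) :
    AEStronglyMeasurable (fun t => T (cpt t)) (volume.restrict (Set.Ioc 0 (2 * Real.pi))) := by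
  rw [← Measure.restrict_congr_set Ioo_ae_eq_Ioc]
  have hc : ContinuousOn (fun t => T (cpt t)) (Set.Ioo 0 (2 * Real.pi)) := by
    refine hTc.comp (by unfold cpt; fun_prop) ?_
    intro t ht
    refine ⟨by rw [mem_closedBall_zero_iff, norm_cpt], ?_⟩
    intro h
    rw [Set.mem_singleton_iff] at h
    unfold cpt at h
    rw [Complex.exp_eq_one_iff] at h
    obtain ⟨n, hn⟩ := h
    have h2 : (t : ℂ) * Complex.I = (n * (2 * Real.pi)) * Complex.I := by rw [hn]; ring
    have h1 : (t : ℂ) = n * (2 * Real.pi) := mul_right_cancel₀ Complex.I_ne_zero h2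
    have h3 : t = n * (2 * Real.pi) := by
      have : ((t : ℝ) : ℂ) = ((n * (2 * Real.pi) : ℝ) : ℂ) := by rw [h1]; push_cast; ring
      exact Complex.ofReal_injective this
    have hpi := Real.two_pi_pos
    have h4 : 0 < (n : ℝ) := by
      by_contra hcon
      have : (n : ℝ) * (2 * Real.pi) ≤ 0 := mul_nonpos_of_nonpos_of_nonneg (not_lt.1 hcon) hpi.le
      linarith [ht.1]
    have h5 : (n : ℝ) < 1 := by
      by_contra hcon
      have : 1 * (2 * Real.pi) ≤ (n : ℝ) * (2 * Real.pi) :=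
        mul_le_mul_of_nonneg_right (not_lt.1 hcon) hpi.le
      linarith [ht.2]
    have h6 : 0 < n := by exact_mod_cast h4
    have h7 : n < 1 := by exact_mod_cast h5
    omega
  exact hc.aestronglyMeasurable measurableSet_Ioo

/-- the final assembly -/
theorem assemble {T J : ℂ → ℂ} {B : W} {A : ℕ → W} {C : ℝ} (hC : 0 ≤ C) (hB : Ge 0 B)
    (hT : ∀ z : ℂ, ‖z‖ ≤ 1 → T z = pw B z / (1 - z))
    (hTJ : ∀ z : ℂ, ‖z‖ < 1 → T z = Sf z * J z)
    (hTd : DifferentiableOn ℂ T (ball 0 1)) (hTc : ContinuousOn T (closedBall 0 1 \ {1}))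
    (hTb : ∀ z, ‖z‖ < 1 → ‖T z‖ ≤ 1) (hT1 : ∀ z, ‖z‖ = 1 → z ≠ 1 → ‖T z‖ = 1)
    (hJd : DifferentiableOn ℂ J (ball 0 1)) (hJc : ContinuousOn J (closedBall 0 1 \ {1}))
    (hJb : ∀ z, ‖z‖ < 1 → ‖J z‖ ≤ 1) (hJ1 : ∀ z, ‖z‖ = 1 → z ≠ 1 → ‖J z‖ = 1)
    (hA : ∀ K, Ge 0 (A K)) (hlim : Tendsto (fun K => (1 - mono 1) * A K) atTop (𝓝 B))
    (hn4 : ∀ K f, n4 (A K * f) ≤ C * n4 f) :
    IsInner T ∧ IsInner J ∧
      (∀ z ∈ ball (0 : ℂ) 1, T z = Complex.exp (-(1 + z) / (1 - z)) * J z) ∧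
      ∀ p : ℝ≥0∞, 4 / 3 ≤ p → p ≤ 4 → MemMpA p T := by
  refine ⟨isInner_of_continuousOn hTd hTc hTb hT1, isInner_of_continuousOn hJd hJc hJb hJ1,
    fun z hz => hTJ z (by simpa using hz), fun p hp1 hp2 => ?_⟩
  -- a bounded version of the boundary function
  have hm := measurable_bdry hTc
  set F : ℝ → ℂ := fun t => if cpt t = 1 then 0 else T (cpt t) with hFdef
  have hFae : ∀ᵐ t : ℝ, F t = T (cpt t) := by
    filter_upwards [cpt_ne_one_ae] with t ht
    simp [hFdef, ht]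
  have hbd : IsBdry T F := by
    have h := isBdry_of_continuousOn hTc
    unfold IsBdry at h ⊢
    filter_upwards [h, hFae] with t h1 h2
    rw [h2]
    exact h1
  have hFm : AEStronglyMeasurable F (volume.restrict (Set.Ioc 0 (2 * Real.pi))) := by
    refine hm.congr ?_
    filter_upwards [ae_restrict_of_ae hFae] with t ht
    exact ht.symm
  have hFb : ∀ t, ‖F t‖ ≤ 1 := by
    intro t
    rw [hFdef]
    simp only
    split_ifs with h
    · simp
    · exact (hT1 _ (norm_cpt t) h).le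
  have hFB : ∀ t, cpt t ≠ 1 → (1 - cpt t) * F t = ev t B := by
    intro t ht
    have h1 : 1 - cpt t ≠ 0 := sub_ne_zero.2 (Ne.symm ht)
    have h2 : F t = T (cpt t) := by simp [hFdef, ht]
    rw [h2, hT _ (norm_cpt t).le, mul_div_cancel₀ _ h1]
    exact pw_exp hB t
  have hco : fhat F = ps B := funext fun n => fhat_eq_ps hB hFm hFb hFB n
  refine ⟨F, hbd, fun n hn => fhat_neg hB hFm hFb hFB hn, ?_⟩
  rw [hco]
  exact isMult_of_rmult_four hC (rmult_ps hA hlim hn4) hp1 hp2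

/-- radial bound for the product with the singular function -/
theorem radial_bound {T J : ℂ → ℂ} (hTJ : ∀ z : ℂ, ‖z‖ < 1 → T z = Sf z * J z)
    (hJb : ∀ z, ‖z‖ < 1 → ‖J z‖ ≤ 1) {r : ℝ} (h0 : 0 < r) (h1 : r < 1) :
    ‖T r‖ ≤ Real.exp (-((1 + r) / (1 - r))) := by
  have hr : ‖(r : ℂ)‖ < 1 := by rwa [Complex.norm_real, Real.norm_of_nonneg h0.le]
  rw [hTJ _ hr, norm_mul]
  have h2 : ‖Sf (r : ℂ)‖ = Real.exp (-((1 + r) / (1 - r))) := by
    unfold Sf
    rw [Complex.norm_exp]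
    congr 1
    have : -(1 + (r : ℂ)) / (1 - r) = ((-((1 + r) / (1 - r)) : ℝ) : ℂ) := by
      push_cast
      ring
    rw [this, Complex.ofReal_re]
  rw [h2]
  exact mul_le_of_le_one_right (Real.exp_pos _).le (hJb _ hr)

end Pool.Agent.H36.Vin
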