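import Mathlib

/-!
# Inner functions, multipliers of `l^p` and Blaschke products

Definitions used by the statement of the main theorem.
-/

namespace Pool.Agent.H36.Vin

open MeasureTheory Filter Topology
open scoped ENNReal NNReal ComplexConjugate

/-- the point `exp (i t)` of the unit circle -/
noncomputable def cpt (t : ℝ) : ℂ := Complex.exp (t * Complex.I)

/-- `F` is the boundary function of `f`: for almost every `t` the radial limit of `f` at
`exp (i t)` exists and equals `F t` -/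
def IsBdry (f : ℂ → ℂ) (F : ℝ → ℂ) : Prop :=
  ∀ᵐ t : ℝ, Tendsto (fun r : ℝ => f (r * cpt t)) (𝓝[<] 1) (𝓝 (F t))

/-- `f` is an inner function: analytic and bounded in the open unit disc, with radial limits of
modulus one almost everywhere -/
def IsInner (f : ℂ → ℂ) : Prop :=
  DifferentiableOn ℂ f (Metric.ball 0 1) ∧ (∃ M : ℝ, ∀ z ∈ Metric.ball (0 : ℂ) 1, ‖f z‖ ≤ M) ∧
    ∃ F : ℝ → ℂ, IsBdry f F ∧ ∀ᵐ t : ℝ, ‖F t‖ = 1

/-- the `n`-th Fourier coefficient of the function `F` on the circle -/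
noncomputable def fhat (F : ℝ → ℂ) (n : ℤ) : ℂ :=
  1 / (2 * Real.pi) * ∫ t in (0 : ℝ)..(2 * Real.pi), F t * Complex.exp (-(n * t * Complex.I))

/-- `φ` is the sequence of Fourier coefficients of a multiplier of `l^p`: convolution with `φ`,
defined on finitely supported sequences, is bounded for the `l^p` norm -/
def IsMult (p : ℝ≥0∞) (φ : ℤ → ℂ) : Prop :=
  ∃ C : ℝ≥0, ∀ P : ℤ →₀ ℂ,
    eLpNorm (fun n : ℤ => ∑ k ∈ P.support, φ (n - k) * P k) p Measure.count
      ≤ C * eLpNorm (fun n : ℤ => P n) p Measure.count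

/-- `f` belongs to `M_p A`: its boundary function is a multiplier of `l^p` whose negative Fourier
coefficients vanish -/
def MemMpA (p : ℝ≥0∞) (f : ℂ → ℂ) : Prop :=
  ∃ F : ℝ → ℂ, IsBdry f F ∧ (∀ n : ℤ, n < 0 → fhat F n = 0) ∧ IsMult p (fhat F)

/-- `f` is a Blaschke product in the open unit disc -/
def IsBlaschke (f : ℂ → ℂ) : Prop :=
  ∃ (c : ℂ) (k : ℕ) (ι : Type) (a : ι → ℂ), ‖c‖ = 1 ∧ (∀ i, a i ≠ 0 ∧ ‖a i‖ < 1) ∧
    Summable (fun i => 1 - ‖a i‖) ∧ ∀ z ∈ Metric.ball (0 : ℂ) 1, ∃ B : ℂ,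
      HasProd (fun i => (‖a i‖ / a i : ℂ) * ((a i - z) / (1 - conj (a i) * z))) B ∧
        f z = c * z ^ k * B

end Pool.Agent.H36.Vin
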