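import Pool.Agent.H36.Vin.Stmt

/-!
# Duality and interpolation for multipliers of `l^p`
-/

namespace Pool.Agent.H36.Vin

open MeasureTheory Filter Topology
open scoped ENNReal NNReal ComplexConjugate BigOperators

/-- real variable form of the multiplier inequality -/
def RMult (q C : ℝ) (φ : ℤ → ℂ) : Prop :=
  ∀ (S T : Finset ℤ) (f : ℤ → ℂ),
    ∑ n ∈ T, ‖∑ k ∈ S, φ (n - k) * f k‖ ^ q ≤ C ^ q * ∑ k ∈ S, ‖f k‖ ^ q

/-- the bilinear form -/
noncomputable def bf (φ : ℤ → ℂ) (S T : Finset ℤ) (f g : ℤ → ℂ) : ℂ :=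
  ∑ n ∈ T, (∑ k ∈ S, φ (n - k) * f k) * g n

variable {φ : ℤ → ℂ} {q q' C : ℝ}

theorem bf_le_of_rmult (hq : q.HolderConjugate q') (hC : 0 ≤ C) (h : RMult q C φ)
    (S T : Finset ℤ) (f g : ℤ → ℂ) :
    ‖bf φ S T f g‖
      ≤ C * (∑ k ∈ S, ‖f k‖ ^ q) ^ (1 / q) * (∑ n ∈ T, ‖g n‖ ^ q') ^ (1 / q') := by
  have hq0 : 0 < q := hq.pos
  unfold bf
  calc ‖∑ n ∈ T, (∑ k ∈ S, φ (n - k) * f k) * g n‖
      ≤ ∑ n ∈ T, ‖∑ k ∈ S, φ (n - k) * f k‖ * ‖g n‖ := by
        refine (norm_sum_le _ _).trans (le_of_eq ?_)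
        exact Finset.sum_congr rfl fun n _ => norm_mul _ _
    _ ≤ (∑ n ∈ T, |‖∑ k ∈ S, φ (n - k) * f k‖| ^ q) ^ (1 / q)
        * (∑ n ∈ T, |‖g n‖| ^ q') ^ (1 / q') := Real.inner_le_Lp_mul_Lq _ _ _ hq
    _ ≤ _ := by
        simp only [abs_norm]
        refine mul_le_mul_of_nonneg_right ?_ (by positivity)
        calc (∑ n ∈ T, ‖∑ k ∈ S, φ (n - k) * f k‖ ^ q) ^ (1 / q)
            ≤ (C ^ q * ∑ k ∈ S, ‖f k‖ ^ q) ^ (1 / q) :=
              Real.rpow_le_rpow (by positivity) (h S T f) (by positivity)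
          _ = C * (∑ k ∈ S, ‖f k‖ ^ q) ^ (1 / q) := by
              rw [Real.mul_rpow (by positivity) (by positivity), ← Real.rpow_mul hC,
                mul_one_div, div_self hq0.ne', Real.rpow_one]

theorem rmult_of_bf (hq : q.HolderConjugate q') (hC : 0 ≤ C)
    (h : ∀ (S T : Finset ℤ) (f g : ℤ → ℂ), ‖bf φ S T f g‖
      ≤ C * (∑ k ∈ S, ‖f k‖ ^ q) ^ (1 / q) * (∑ n ∈ T, ‖g n‖ ^ q') ^ (1 / q')) :
    RMult q C φ := by
  intro S T f
  have hq0 : 0 < q := hq.pos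
  have hq1 : 1 < q := hq.lt
  set H : ℤ → ℂ := fun n => ∑ k ∈ S, φ (n - k) * f k with hH
  set X := ∑ n ∈ T, ‖H n‖ ^ q with hX
  set N := ∑ k ∈ S, ‖f k‖ ^ q with hN
  have hX0 : 0 ≤ X := by positivity
  have hN0 : 0 ≤ N := by positivity
  rcases hX0.eq_or_lt with hX1 | hX1
  · show X ≤ C ^ q * N
    rw [← hX1]
    positivity
  set g : ℤ → ℂ := fun n => conj (H n) * ((‖H n‖ ^ (q - 2) : ℝ) : ℂ) with hg
  have hHg : ∀ n, H n * g n = ((‖H n‖ ^ q : ℝ) : ℂ) := by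
    intro n
    rcases eq_or_ne (H n) 0 with h0 | h0
    · rw [h0, zero_mul, norm_zero, Real.zero_rpow hq0.ne']
      simp
    · have hp : 0 < ‖H n‖ := norm_pos_iff.2 h0
      rw [hg]
      simp only
      rw [← mul_assoc, Complex.mul_conj, Complex.normSq_eq_norm_sq, ← Complex.ofReal_mul]
      congr 1
      rw [← Real.rpow_natCast, ← Real.rpow_add hp]
      congr 1
      push_cast
      ring
  have hgn : ∀ n, ‖g n‖ ^ q' = ‖H n‖ ^ q := by
    intro n
    rcases eq_or_ne (H n) 0 with h0 | h0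
    · rw [hg]
      simp only
      rw [h0]
      simp [Real.zero_rpow hq0.ne', Real.zero_rpow hq.symm.pos.ne']
    · have hp : 0 < ‖H n‖ := norm_pos_iff.2 h0
      rw [hg]
      simp only
      rw [norm_mul, RCLike.norm_conj, Complex.norm_real, Real.norm_of_nonneg (by positivity)]
      nth_rewrite 1 [← Real.rpow_one ‖H n‖]
      rw [← Real.rpow_add hp, ← Real.rpow_mul hp.le]
      congr 1
      rw [show 1 + (q - 2) = q - 1 by ring]
      exact hq.sub_one_mul_conj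
  have h1 := h S T f g
  have h2 : bf φ S T f g = ((X : ℝ) : ℂ) := by
    unfold bf
    rw [hX, Complex.ofReal_sum]
    exact Finset.sum_congr rfl fun n _ => hHg n
  rw [h2, Complex.norm_real, Real.norm_of_nonneg hX0, Finset.sum_congr rfl fun n _ => hgn n] at h1
  change X ≤ C * N ^ (1 / q) * X ^ (1 / q') at h1
  show X ≤ C ^ q * N
  have h3 : X = X ^ (1 / q) * X ^ (1 / q') := by
    rw [← Real.rpow_add hX1, one_div, one_div, hq.inv_add_inv_eq_one, Real.rpow_one]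
  have h4 : X ^ (1 / q) ≤ C * N ^ (1 / q) := by
    have h5 : 0 < X ^ (1 / q') := by positivity
    have h6 : X ^ (1 / q) * X ^ (1 / q') ≤ (C * N ^ (1 / q)) * X ^ (1 / q') := h3 ▸ h1
    exact le_of_mul_le_mul_right h6 h5
  have h7 := Real.rpow_le_rpow (by positivity) h4 hq0.le
  rw [← Real.rpow_mul hX0, Real.mul_rpow hC (by positivity), ← Real.rpow_mul hN0,
    one_div_mul_cancel hq0.ne', Real.rpow_one, Real.rpow_one] at h7
  exact h7

/-- reflection symmetry of the bilinear form -/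
theorem bf_reflect (φ : ℤ → ℂ) (S T : Finset ℤ) (f g : ℤ → ℂ) :
    bf φ (T.map (Equiv.neg ℤ).toEmbedding) (S.map (Equiv.neg ℤ).toEmbedding)
      (fun n => g (-n)) (fun n => f (-n)) = bf φ S T f g := by
  unfold bf
  rw [Finset.sum_map]
  simp only [Equiv.coe_toEmbedding, Equiv.neg_apply, Finset.sum_map, neg_neg, sub_neg_eq_add]
  simp_rw [Finset.sum_mul]
  rw [Finset.sum_comm]
  refine Finset.sum_congr rfl fun n _ => Finset.sum_congr rfl fun k _ => ?_
  rw [show -k + n = n - k by ring]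
  ring

theorem sum_reflect (S : Finset ℤ) (f : ℤ → ℂ) (q : ℝ) :
    ∑ k ∈ S.map (Equiv.neg ℤ).toEmbedding, ‖f (-k)‖ ^ q = ∑ k ∈ S, ‖f k‖ ^ q := by
  rw [Finset.sum_map]
  simp

/-! ### complex powers -/

/-- `|x|^e` times the phase of `x` -/
noncomputable def cp (e x : ℂ) : ℂ :=
  if x = 0 then 0 else (x / ‖x‖) * Complex.exp (e * (Real.log ‖x‖ : ℝ))

theorem cp_one (x : ℂ) : cp 1 x = x := by
  unfold cp
  split_ifs with h
  · exact h.symm
  · have hp : 0 < ‖x‖ := norm_pos_iff.2 h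
    have hp' : ((‖x‖ : ℝ) : ℂ) ≠ 0 := by exact_mod_cast hp.ne'
    rw [one_mul, ← Complex.ofReal_exp, Real.exp_log hp]
    field_simp

theorem norm_cp {e x : ℂ} (he : 0 < e.re) : ‖cp e x‖ = ‖x‖ ^ e.re := by
  unfold cp
  split_ifs with h
  · rw [h, norm_zero, Real.zero_rpow he.ne']
  · have hp : 0 < ‖x‖ := norm_pos_iff.2 h
    rw [norm_mul, norm_div, Complex.norm_real, norm_norm, div_self hp.ne', one_mul,
      Complex.norm_exp, Complex.re_mul_ofReal, mul_comm, ← Real.rpow_def_of_pos hp]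

theorem norm_cp_le {e x : ℂ} {M : ℝ} (he : 0 ≤ e.re) (he' : e.re ≤ M) :
    ‖cp e x‖ ≤ (1 + ‖x‖) ^ M := by
  unfold cp
  split_ifs with h
  · rw [norm_zero]
    positivity
  · have hp : 0 < ‖x‖ := norm_pos_iff.2 h
    rw [norm_mul, norm_div, Complex.norm_real, norm_norm, div_self hp.ne', one_mul,
      Complex.norm_exp, Complex.re_mul_ofReal, mul_comm, ← Real.rpow_def_of_pos hp]
    calc ‖x‖ ^ e.re ≤ (1 + ‖x‖) ^ e.re := Real.rpow_le_rpow hp.le (by linarith) he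
      _ ≤ (1 + ‖x‖) ^ M := Real.rpow_le_rpow_of_exponent_le (by linarith) he'

theorem differentiable_cp (a b x : ℂ) : Differentiable ℂ (fun z : ℂ => cp (a + b * z) x) := by
  unfold cp
  split_ifs with h
  · fun_prop
  · fun_prop

theorem holder_four : (4 : ℝ).HolderConjugate (4 / 3) := by
  rw [Real.holderConjugate_iff]
  constructor <;> norm_num

/-- Riesz-Thorin interpolation between `4` and its dual exponent -/
theorem bf_interp (hC : 0 ≤ C) (h4 : RMult 4 C φ) (hq : q.HolderConjugate q')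
    (h1 : 4 / 3 ≤ q) (h2 : q ≤ 4) (S T : Finset ℤ) (f g : ℤ → ℂ) :
    ‖bf φ S T f g‖
      ≤ C * (∑ k ∈ S, ‖f k‖ ^ q) ^ (1 / q) * (∑ n ∈ T, ‖g n‖ ^ q') ^ (1 / q') := by
  have hq0 : 0 < q := hq.pos
  have hq0' : 0 < q' := hq.symm.pos
  set X := ∑ k ∈ S, ‖f k‖ ^ q with hX
  set Y := ∑ n ∈ T, ‖g n‖ ^ q' with hY
  have hX0 : 0 ≤ X := by positivity
  have hY0 : 0 ≤ Y := by positivity
  set F : ℂ → ℤ → ℂ := fun z k => cp (q / 4 + q / 2 * z) (f k) with hF
  set G : ℂ → ℤ → ℂ := fun z n => cp (3 * q' / 4 + (-(q' / 2)) * z) (g n) with hG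
  set Φ : ℂ → ℂ := fun z => bf φ S T (F z) (G z) with hΦ
  have hreF : ∀ z : ℂ, ((q : ℂ) / 4 + q / 2 * z).re = q / 4 + q / 2 * z.re := by
    intro z
    have : ((q : ℂ) / 4 + q / 2 * z) = ((q / 4 : ℝ) : ℂ) + ((q / 2 : ℝ) : ℂ) * z := by
      push_cast; ring
    rw [this, Complex.add_re, Complex.ofReal_re, Complex.re_ofReal_mul]
  have hreG : ∀ z : ℂ, (3 * (q' : ℂ) / 4 + (-(q' / 2)) * z).re = 3 * q' / 4 + (-(q' / 2)) * z.re := by
    intro z
    have : (3 * (q' : ℂ) / 4 + (-(q' / 2)) * z)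
        = ((3 * q' / 4 : ℝ) : ℂ) + ((-(q' / 2) : ℝ) : ℂ) * z := by
      push_cast; ring
    rw [this, Complex.add_re, Complex.ofReal_re, Complex.re_ofReal_mul]
  have hdiff : Differentiable ℂ Φ := by
    rw [hΦ]
    unfold bf
    refine Differentiable.fun_sum fun n _ => ?_
    refine Differentiable.fun_mul ?_ (differentiable_cp _ _ _)
    refine Differentiable.fun_sum fun k _ => ?_
    exact (differentiable_const _).fun_mul (differentiable_cp _ _ _)
  have hbdd : BddAbove ((norm ∘ Φ) '' Complex.HadamardThreeLines.verticalClosedStrip 0 1) := by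
    refine ⟨∑ n ∈ T, (∑ k ∈ S, ‖φ (n - k)‖ * (1 + ‖f k‖) ^ q) * (1 + ‖g n‖) ^ q', ?_⟩
    rintro _ ⟨z, hz, rfl⟩
    have hz' : z.re ∈ Set.Icc (0:ℝ) 1 := hz
    obtain ⟨hz0, hz1⟩ := hz'
    show ‖Φ z‖ ≤ _
    rw [hΦ]
    unfold bf
    refine (norm_sum_le _ _).trans (Finset.sum_le_sum fun n _ => ?_)
    rw [norm_mul]
    refine mul_le_mul ?_ ?_ (norm_nonneg _) (by positivity)
    · refine (norm_sum_le _ _).trans (Finset.sum_le_sum fun k _ => ?_)
      rw [norm_mul]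
      refine mul_le_mul_of_nonneg_left ?_ (norm_nonneg _)
      exact norm_cp_le (by rw [hreF]; positivity) (by rw [hreF]; nlinarith)
    · exact norm_cp_le (by rw [hreG]; nlinarith) (by rw [hreG]; nlinarith)
  -- boundary values
  have hnF : ∀ z : ℂ, 0 ≤ z.re → ∀ k, ‖F z k‖ = ‖f k‖ ^ (q / 4 + q / 2 * z.re) := by
    intro z hz k
    rw [hF]
    simp only
    rw [norm_cp (by rw [hreF]; positivity), hreF]
  have hnG : ∀ z : ℂ, z.re ≤ 1 → ∀ n, ‖G z n‖ = ‖g n‖ ^ (3 * q' / 4 + (-(q' / 2)) * z.re) := by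
    intro z hz n
    rw [hG]
    simp only
    rw [norm_cp (by rw [hreG]; nlinarith), hreG]
  have ha : ∀ z ∈ Complex.re ⁻¹' {(0:ℝ)}, ‖Φ z‖ ≤ C * X ^ (1 / 4 : ℝ) * Y ^ (3 / 4 : ℝ) := by
    intro z hz
    have hz0 : z.re = 0 := hz
    have h := bf_le_of_rmult holder_four hC h4 S T (F z) (G z)
    have e1 : ∑ k ∈ S, ‖F z k‖ ^ (4 : ℝ) = X := Finset.sum_congr rfl fun k _ => by
      rw [hnF z hz0.ge, ← Real.rpow_mul (norm_nonneg _), hz0]
      congr 1
      ring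
    have e2 : ∑ n ∈ T, ‖G z n‖ ^ (4 / 3 : ℝ) = Y := Finset.sum_congr rfl fun n _ => by
      rw [hnG z (hz0.le.trans zero_le_one), ← Real.rpow_mul (norm_nonneg _), hz0]
      congr 1
      ring
    rw [e1, e2, one_div_div] at h
    exact h
  have hb : ∀ z ∈ Complex.re ⁻¹' {(1:ℝ)}, ‖Φ z‖ ≤ C * X ^ (3 / 4 : ℝ) * Y ^ (1 / 4 : ℝ) := by
    intro z hz
    have hz0 : z.re = 1 := hz
    have h := bf_le_of_rmult holder_four hC h4 (T.map (Equiv.neg ℤ).toEmbedding)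
      (S.map (Equiv.neg ℤ).toEmbedding) (fun n => G z (-n)) (fun n => F z (-n))
    rw [bf_reflect, sum_reflect, sum_reflect] at h
    have e1 : ∑ k ∈ S, ‖F z k‖ ^ (4 / 3 : ℝ) = X := Finset.sum_congr rfl fun k _ => by
      rw [hnF z (by rw [hz0]; exact zero_le_one), ← Real.rpow_mul (norm_nonneg _), hz0]
      congr 1
      ring
    have e2 : ∑ n ∈ T, ‖G z n‖ ^ (4 : ℝ) = Y := Finset.sum_congr rfl fun n _ => by
      rw [hnG z hz0.le, ← Real.rpow_mul (norm_nonneg _), hz0]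
      congr 1
      ring
    rw [e1, e2, one_div_div] at h
    refine h.trans (le_of_eq ?_)
    ring
  -- interpolation parameter
  set θ : ℝ := 2 / q - 1 / 2 with hθ
  have hθ0 : 0 ≤ θ := by
    rw [hθ, sub_nonneg, div_le_div_iff₀ (by norm_num) hq0]
    linarith
  have hθ1 : θ ≤ 1 := by
    rw [hθ, sub_le_iff_le_add, div_le_iff₀ hq0]
    linarith
  have key := Complex.HadamardThreeLines.norm_le_interp_of_mem_verticalClosedStrip₀₁' Φ
    (z := (θ : ℂ)) (by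
      show (θ : ℂ).re ∈ Set.Icc (0:ℝ) 1
      rw [Complex.ofReal_re]
      exact ⟨hθ0, hθ1⟩) hdiff.diffContOnCl hbdd ha hb
  rw [Complex.ofReal_re] at key
  have hqinv : 1 / q + 1 / q' = 1 := by
    rw [one_div, one_div]
    exact hq.inv_add_inv_eq_one
  have hval : Φ θ = bf φ S T f g := by
    have e1 : (q : ℂ) / 4 + q / 2 * θ = 1 := by
      have : q / 4 + q / 2 * θ = 1 := by
        rw [hθ]
        field_simp
        ring
      exact_mod_cast this
    have e2 : 3 * (q' : ℂ) / 4 + (-(q' / 2)) * θ = 1 := by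
      have : 3 * q' / 4 + (-(q' / 2)) * θ = 1 := by
        have h3 : 1 / q = 1 - 1 / q' := by linarith
        have h4 : θ = 2 * (1 - 1 / q') - 1 / 2 := by
          rw [hθ, ← h3]
          ring
        rw [h4]
        field_simp
        ring
      exact_mod_cast this
    rw [hΦ]
    simp only [hF, hG]
    rw [e1, e2]
    simp only [cp_one]
  rw [hval] at key
  refine key.trans (le_of_eq ?_)
  have h1θ : 0 ≤ 1 - θ := by linarith
  rw [Real.mul_rpow (by positivity) (by positivity), Real.mul_rpow hC (by positivity),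
    Real.mul_rpow (by positivity) (by positivity), Real.mul_rpow hC (by positivity),
    ← Real.rpow_mul hX0, ← Real.rpow_mul hX0, ← Real.rpow_mul hY0, ← Real.rpow_mul hY0]
  have eC : C ^ (1 - θ) * C ^ θ = C := by
    rw [← Real.rpow_add_of_nonneg hC h1θ hθ0]
    simp
  have eX : X ^ (1 / 4 * (1 - θ)) * X ^ (3 / 4 * θ) = X ^ (1 / q) := by
    rw [← Real.rpow_add_of_nonneg hX0 (by positivity) (by positivity)]
    congr 1
    rw [hθ]
    ring
  have eY : Y ^ (3 / 4 * (1 - θ)) * Y ^ (1 / 4 * θ) = Y ^ (1 / q') := by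
    rw [← Real.rpow_add_of_nonneg hY0 (by positivity) (by positivity)]
    congr 1
    have : 1 / q' = 1 - 1 / q := by linarith
    rw [this, hθ]
    ring
  calc C ^ (1 - θ) * X ^ (1 / 4 * (1 - θ)) * Y ^ (3 / 4 * (1 - θ))
        * (C ^ θ * X ^ (3 / 4 * θ) * Y ^ (1 / 4 * θ))
      = (C ^ (1 - θ) * C ^ θ) * (X ^ (1 / 4 * (1 - θ)) * X ^ (3 / 4 * θ))
        * (Y ^ (3 / 4 * (1 - θ)) * Y ^ (1 / 4 * θ)) := by ring
    _ = _ := by rw [eC, eX, eY]

theorem rmult_interp (hC : 0 ≤ C) (h4 : RMult 4 C φ) (h1 : 4 / 3 ≤ q) (h2 : q ≤ 4) :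
    RMult q C φ := by
  have hq1 : 1 < q := by linarith
  have hq : q.HolderConjugate (q.conjExponent) := Real.HolderConjugate.conjExponent hq1
  exact rmult_of_bf hq hC fun S T f g => bf_interp hC h4 hq h1 h2 S T f g

/-- from the real variable form to the `eLpNorm` form -/
theorem isMult_of_rmult {p : ℝ≥0∞} (hp0 : p ≠ 0) (hpt : p ≠ ⊤) (hC : 0 ≤ C)
    (h : RMult p.toReal C φ) : IsMult p φ := by
  have hq0 : 0 < p.toReal := ENNReal.toReal_pos hp0 hpt
  refine ⟨C.toNNReal, fun P => ?_⟩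
  rw [eLpNorm_eq_lintegral_rpow_enorm_toReal hp0 hpt, eLpNorm_eq_lintegral_rpow_enorm_toReal hp0 hpt,
    lintegral_count, lintegral_count]
  set q := p.toReal with hq
  have key : ∑' n : ℤ, ‖∑ k ∈ P.support, φ (n - k) * P k‖ₑ ^ q
      ≤ (ENNReal.ofReal C) ^ q * ∑' n : ℤ, ‖P n‖ₑ ^ q := by
    rw [ENNReal.tsum_eq_iSup_sum]
    refine iSup_le fun T => ?_
    have h1 := h P.support T P
    have h2 : ∀ x : ℂ, ‖x‖ₑ ^ q = ENNReal.ofReal (‖x‖ ^ q) := fun x => by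
      rw [← ofReal_norm, ENNReal.ofReal_rpow_of_nonneg (norm_nonneg _) hq0.le]
    have h3 : (ENNReal.ofReal C) ^ q = ENNReal.ofReal (C ^ q) :=
      ENNReal.ofReal_rpow_of_nonneg hC hq0.le
    calc ∑ n ∈ T, ‖∑ k ∈ P.support, φ (n - k) * P k‖ₑ ^ q
        = ENNReal.ofReal (∑ n ∈ T, ‖∑ k ∈ P.support, φ (n - k) * P k‖ ^ q) := by
          rw [ENNReal.ofReal_sum_of_nonneg fun _ _ => by positivity]
          exact Finset.sum_congr rfl fun n _ => h2 _
      _ ≤ ENNReal.ofReal (C ^ q * ∑ k ∈ P.support, ‖P k‖ ^ q) := ENNReal.ofReal_le_ofReal h1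
      _ = ENNReal.ofReal (C ^ q) * ∑ k ∈ P.support, ‖P k‖ₑ ^ q := by
          rw [ENNReal.ofReal_mul (by positivity), ENNReal.ofReal_sum_of_nonneg fun _ _ => by positivity]
          congr 1
          exact Finset.sum_congr rfl fun n _ => (h2 _).symm
      _ ≤ _ := by
          rw [h3]
          gcongr
          exact ENNReal.sum_le_tsum _
  calc (∑' n : ℤ, ‖∑ k ∈ P.support, φ (n - k) * P k‖ₑ ^ q) ^ (1 / q)
      ≤ ((ENNReal.ofReal C) ^ q * ∑' n : ℤ, ‖P n‖ₑ ^ q) ^ (1 / q) :=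
        ENNReal.rpow_le_rpow key (by positivity)
    _ = ENNReal.ofReal C * (∑' n : ℤ, ‖P n‖ₑ ^ q) ^ (1 / q) := by
        rw [ENNReal.mul_rpow_of_nonneg _ _ (by positivity), ← ENNReal.rpow_mul, mul_one_div,
          div_self hq0.ne', ENNReal.rpow_one]

/-- a multiplier of `l^4` is a multiplier of `l^p` for `4/3 ≤ p ≤ 4` -/
theorem isMult_of_rmult_four {p : ℝ≥0∞} (hC : 0 ≤ C) (h4 : RMult 4 C φ)
    (h1 : 4 / 3 ≤ p) (h2 : p ≤ 4) : IsMult p φ := by
  have hpt : p ≠ ⊤ := fun h => by simp [h] at h2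
  have h43 : (4 / 3 : ℝ≥0∞) = ENNReal.ofReal (4 / 3) := by
    rw [ENNReal.ofReal_div_of_pos (by norm_num)]
    simp
  have hp0 : p ≠ 0 := by
    rintro rfl
    rw [h43] at h1
    simp at h1
    norm_num at h1
  refine isMult_of_rmult hp0 hpt hC (rmult_interp hC h4 ?_ ?_)
  · rw [h43, ENNReal.ofReal_le_iff_le_toReal hpt] at h1
    exact h1
  · have := ENNReal.toReal_mono (by simp) h2
    simpa using this

end Pool.Agent.H36.Vin
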