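import Pool.Agent.H47.Vin.W

/-!
# Exponential, logarithm and outer factors in the Wiener algebra
-/

namespace Pool.Agent.H47.Vin

open scoped BigOperators Nat

theorem hasSum_ev {ι : Type*} {f : ι → W} {a : W} (t : ℝ) (h : HasSum f a) :
    HasSum (fun i => ev t (f i)) (ev t a) := by
  have := h.map (evHom t).toLinearMap.toAddMonoidHom (continuous_ev t)
  exact this

theorem norm_le_of_co_le {f g : W} (h : ∀ n, ‖co f n‖ ≤ ‖co g n‖) : ‖f‖ ≤ ‖g‖ := by
  rw [norm_eq, norm_eq]
  exact Summable.tsum_le_tsum h (summable_co _) (summable_co _)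

/-- the exponential of an element of the Wiener algebra -/
noncomputable def expW (q : W) : W := ∑' n : ℕ, ((n ! : ℂ)⁻¹) • q ^ n

theorem norm_expW_term_le (q : W) (n : ℕ) : ‖((n ! : ℂ)⁻¹) • q ^ n‖ ≤ ‖q‖ ^ n / n ! := by
  rw [norm_smul, norm_inv, Complex.norm_natCast, div_eq_inv_mul]
  exact mul_le_mul_of_nonneg_left (norm_pow_le q n) (by positivity)

theorem summable_expW (q : W) : Summable fun n : ℕ => ((n ! : ℂ)⁻¹) • q ^ n :=
  Summable.of_norm_bounded (Real.summable_pow_div_factorial ‖q‖) (norm_expW_term_le q)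

theorem norm_expW_le (q : W) : ‖expW q‖ ≤ Real.exp ‖q‖ := by
  refine tsum_of_norm_bounded ?_ (norm_expW_term_le q)
  rw [Real.exp_eq_exp_ℝ]
  exact NormedSpace.expSeries_div_hasSum_exp ‖q‖

theorem ev_expW (t : ℝ) (q : W) : ev t (expW q) = Complex.exp (ev t q) := by
  have h1 := hasSum_ev t (summable_expW q).hasSum
  have h2 : HasSum (fun n : ℕ => ev t (((n ! : ℂ)⁻¹) • q ^ n)) (Complex.exp (ev t q)) := by
    rw [Complex.exp_eq_exp_ℂ]
    refine (NormedSpace.expSeries_div_hasSum_exp (ev t q)).congr_fun ?_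
    intro n
    rw [ev_smul', ev_pow, div_eq_inv_mul]
  exact h1.unique h2

/-- the logarithm of `1 + d` -/
noncomputable def logW (d : W) : W := ∑' n : ℕ, ((-1 : ℂ) ^ (n + 1) / n) • d ^ n

theorem norm_logW_term_le (d : W) (n : ℕ) : ‖((-1 : ℂ) ^ (n + 1) / n) • d ^ n‖ ≤ ‖d‖ ^ n / n := by
  rw [norm_smul, norm_div, Complex.norm_natCast, norm_pow, norm_neg, norm_one, one_pow,
    div_mul_eq_mul_div, one_mul]
  exact div_le_div_of_nonneg_right (norm_pow_le d n) (by positivity)

theorem hasSum_log_real {x : ℝ} (h0 : 0 ≤ x) (h1 : x < 1) :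
    HasSum (fun n : ℕ => x ^ n / n) (-Real.log (1 - x)) := by
  have h := Real.hasSum_pow_div_log_of_abs_lt_one (x := x) (by rwa [abs_of_nonneg h0])
  have h2 := (hasSum_nat_add_iff (f := fun n : ℕ => x ^ n / n) 1).1 (by simpa using h)
  simpa using h2

theorem summable_logW {d : W} (hd : ‖d‖ < 1) :
    Summable fun n : ℕ => ((-1 : ℂ) ^ (n + 1) / n) • d ^ n :=
  Summable.of_norm_bounded (hasSum_log_real (norm_nonneg d) hd).summable (norm_logW_term_le d)

theorem norm_logW_le {d : W} (hd : ‖d‖ < 1) : ‖logW d‖ ≤ -Real.log (1 - ‖d‖) :=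
  tsum_of_norm_bounded (hasSum_log_real (norm_nonneg d) hd) (norm_logW_term_le d)

theorem ev_logW (t : ℝ) {d : W} (hd : ‖d‖ < 1) : ev t (logW d) = Complex.log (1 + ev t d) := by
  have h1 := hasSum_ev t (summable_logW hd).hasSum
  have h2 := Complex.hasSum_taylorSeries_log (z := ev t d) ((norm_ev_le t d).trans_lt hd)
  refine h1.unique (h2.congr_fun ?_)
  intro n
  rw [ev_smul', ev_pow]
  ring

theorem one_add_ev_ne_zero (t : ℝ) {d : W} (hd : ‖d‖ < 1) : 1 + ev t d ≠ 0 := by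
  intro h
  have h1 : ‖ev t d‖ < 1 := (norm_ev_le t d).trans_lt hd
  have h2 : ev t d = -1 := by linear_combination h
  rw [h2, norm_neg, norm_one] at h1
  exact lt_irrefl _ h1

theorem expW_logW {d : W} (hd : ‖d‖ < 1) : expW (logW d) = 1 + d := ext_ev fun t => by
  rw [ev_expW, ev_logW t hd, Complex.exp_log (one_add_ev_ne_zero t hd), ev_add, ev_one']

theorem adj_logW {d : W} (hd : ‖d‖ < 1) : adj (logW d) = logW (adj d) := ext_ev fun t => by
  have hd2 : ‖adj d‖ < 1 := by rwa [norm_adj]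
  rw [ev_adj, ev_logW t hd, ev_logW t hd2, ev_adj, ← Complex.log_conj, map_add, map_one]
  intro h
  have h1 : ‖ev t d‖ < 1 := (norm_ev_le t d).trans_lt hd
  have h2 := (Complex.arg_eq_pi_iff.1 h).1
  rw [Complex.add_re, Complex.one_re] at h2
  have h3 := (abs_le.1 (Complex.abs_re_le_norm (ev t d))).1
  linarith

theorem expW_add (p q : W) : expW (p + q) = expW p * expW q := ext_ev fun t => by
  rw [ev_mul', ev_expW, ev_expW, ev_expW, ev_add, Complex.exp_add]

theorem expW_zero : expW 0 = 1 := ext_ev fun t => by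
  rw [ev_expW, ev_zero', Complex.exp_zero, ev_one']

theorem adj_expW (q : W) : adj (expW q) = expW (adj q) := ext_ev fun t => by
  rw [ev_adj, ev_expW, ev_expW, ev_adj, Complex.exp_conj]

theorem Ge.pow {f : W} (hf : Ge 0 f) (n : ℕ) : Ge 0 (f ^ n) := by
  induction n with
  | zero => rw [pow_zero]; exact ge_one
  | succ n ih =>
      rw [pow_succ]
      have := ih.mul hf
      simpa using this

theorem Ge.hasSum {ι : Type*} {ν : ℤ} {f : ι → W} {a : W} (h : HasSum f a) (hf : ∀ i, Ge ν (f i)) :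
    Ge ν a := by
  classical
  exact (isClosed_ge ν).mem_of_tendsto h (Filter.Eventually.of_forall fun s =>
    Ge.sum s f fun i _ => hf i)

theorem Ge.expW {q : W} (hq : Ge 0 q) : Ge 0 (expW q) :=
  Ge.hasSum (summable_expW q).hasSum fun n => (hq.pow n).smul _

/-- half of the zeroth coefficient plus the positive frequencies -/
noncomputable def half (L : W) : W := res (Set.Ioi 0) L + (co L 0 / 2) • (1 : W)

theorem co_half (L : W) (n : ℤ) :
    co (half L) n = if 0 < n then co L n else if n = 0 then co L 0 / 2 else 0 := by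
  classical
  unfold half
  rw [co_add, co_res, co_smul, co_one]
  rcases lt_trichotomy n 0 with h | h | h
  · simp [h.ne, not_lt.2 h.le]
  · simp [h]
  · simp [h, h.ne']

theorem ge_half (L : W) : Ge 0 (half L) := fun n hn => by
  rw [co_half, if_neg (by omega), if_neg (by omega)]

theorem norm_half_le (L : W) : ‖half L‖ ≤ ‖L‖ := by
  refine norm_le_of_co_le fun n => ?_
  rw [co_half]
  split_ifs with h1 h2
  · exact le_rfl
  · subst h2
    rw [norm_div]
    have : ‖(2 : ℂ)‖ = 2 := by simp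
    rw [this]
    have := norm_nonneg (co L 0)
    linarith
  · simp

theorem half_add_adj {L : W} (hL : adj L = L) : half L + adj (half L) = L := ext_co fun n => by
  have hc : ∀ n, starRingEnd ℂ (co L (-n)) = co L n := fun n => by
    rw [← co_adj, hL]
  rw [co_add, co_adj, co_half, co_half]
  rcases lt_trichotomy n 0 with h | h | h
  · rw [if_neg (by omega), if_neg (by omega), if_pos (by omega), hc, zero_add]
  · subst h
    have h0 := hc 0
    rw [neg_zero] at h0
    simp only [lt_irrefl, neg_zero, if_false, if_true, map_div₀, Complex.conj_ofNat, h0]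
    ring
  · rw [if_pos h, if_neg (by omega), if_neg (by omega), map_zero, add_zero]

/-- Outer factor attached to a real element `L`: `O` is an exponential with `|O|^2 = exp L`. -/
theorem outer_of_log (L : W) (hL : adj L = L) :
    ∃ O Oi : W, O * Oi = 1 ∧ Ge 0 O ∧ Ge 0 Oi ∧ O * adj O = expW L ∧
      ‖O‖ ≤ Real.exp ‖L‖ ∧ ‖Oi‖ ≤ Real.exp ‖L‖ := by
  refine ⟨expW (half L), expW (-half L), ?_, (ge_half L).expW, ?_, ?_, ?_, ?_⟩
  · rw [← expW_add, add_neg_cancel, expW_zero]
  · refine Ge.expW ?_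
    have h := (ge_half L).smul (-1)
    simpa using h
  · rw [adj_expW, ← expW_add, half_add_adj hL]
  · exact (norm_expW_le _).trans (Real.exp_le_exp.2 (norm_half_le L))
  · refine (norm_expW_le _).trans (Real.exp_le_exp.2 ?_)
    rw [norm_neg]
    exact norm_half_le L

/-- Outer factor of `1 + D` for a small real `D`. -/
theorem outer_factor (D : W) (hD : adj D = D) (hn : ‖D‖ < 1) :
    ∃ O Oi : W, O * Oi = 1 ∧ Ge 0 O ∧ Ge 0 Oi ∧ O * adj O = 1 + D ∧
      ‖O‖ ≤ (1 - ‖D‖)⁻¹ ∧ ‖Oi‖ ≤ (1 - ‖D‖)⁻¹ := by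
  have hL : adj (logW D) = logW D := by rw [adj_logW hn, hD]
  obtain ⟨O, Oi, h1, h2, h3, h4, h5, h6⟩ := outer_of_log (logW D) hL
  have hpos : 0 < 1 - ‖D‖ := by linarith
  have hexp : Real.exp ‖logW D‖ ≤ (1 - ‖D‖)⁻¹ := by
    refine (Real.exp_le_exp.2 (norm_logW_le hn)).trans ?_
    rw [Real.exp_neg, Real.exp_log hpos]
  exact ⟨O, Oi, h1, h2, h3, by rw [h4, expW_logW hn], h5.trans hexp, h6.trans hexp⟩

/-- Outer factor of `1 + k` for a small `k` (not necessarily real): `|O| = |1 + k|`. -/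
theorem outer_factor_abs (k : W) (hn : ‖k‖ < 1) :
    ∃ O Oi : W, O * Oi = 1 ∧ Ge 0 O ∧ Ge 0 Oi ∧ O * adj O = (1 + k) * adj (1 + k) ∧
      ‖O‖ ≤ ((1 - ‖k‖) ^ 2)⁻¹ ∧ ‖Oi‖ ≤ ((1 - ‖k‖) ^ 2)⁻¹ := by
  have hpos : 0 < 1 - ‖k‖ := by linarith
  have hL : adj (logW k + adj (logW k)) = logW k + adj (logW k) := by
    rw [adj_add, adj_adj, add_comm]
  obtain ⟨O, Oi, h1, h2, h3, h4, h5, h6⟩ := outer_of_log _ hL
  have hnorm : ‖logW k + adj (logW k)‖ ≤ -Real.log (1 - ‖k‖) + -Real.log (1 - ‖k‖) := by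
    refine (norm_add_le _ _).trans ?_
    rw [norm_adj]
    exact add_le_add (norm_logW_le hn) (norm_logW_le hn)
  have hexp : Real.exp ‖logW k + adj (logW k)‖ ≤ ((1 - ‖k‖) ^ 2)⁻¹ := by
    refine (Real.exp_le_exp.2 hnorm).trans ?_
    rw [Real.exp_add, Real.exp_neg, Real.exp_log hpos, sq, mul_inv]
  refine ⟨O, Oi, h1, h2, h3, ?_, h5.trans hexp, h6.trans hexp⟩
  rw [h4, expW_add, ← adj_expW, expW_logW hn]

end Pool.Agent.H47.Vin
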